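import Pool.Agent.T2h89.CL.A3
import Pool.Agent.N681.AI.B1

/-!
The orbits with a given minimum which reach it at a time in a given set of times: the harmonic relation, iterated.
-/

set_option autoImplicit false

namespace Pool.Agent.T2h89.CL
open Pool.Agent.H319R3.GC Pool.Agent.H319R3.DN Finset Filter Topology
open Pool.Agent.N681.AI (start_lower Lm Lm_ainv exists_Rb far_terms m_ne0)

variable {d : ℕ} {m r : ℕ → ℤ}

/-- the integers whose orbit has minimum `e` and reaches it for the first time at a time in `P` -/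
def HS (d : ℕ) (m r : ℕ → ℤ) (e : ℤ) (P : ℕ → Prop) : Set ℤ :=
  {n : ℤ | n ∈ Lm d m r e ∧ ∃ k, P k ∧ (Tm d m r)^[k] n = e ∧ ∀ j < k, (Tm d m r)^[j] n ≠ e}

/-- `k` steps for starting points `≥ c₀ d^k` -/
theorem HS_step (h : Adm d m r) (hm : ∀ i < d, 0 < m i) {e : ℤ} (he : 0 < e) :
    ∃ c₀ : ℝ, ∀ (P : ℕ → Prop) (k : ℕ) (x : ℤ), c₀ * (d : ℝ) ^ k ≤ |(x : ℝ)| →
      (x ∈ HS d m r e P ↔ (Tm d m r)^[k] x ∈ HS d m r e (fun j => P (k + j))) := by
  obtain ⟨c₁, h1⟩ := Lm_ainv h hm he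
  obtain ⟨Rb, hR0, hR⟩ := exists_Rb d r
  refine ⟨max c₁ ((Rb + e) + Rb + 1), fun P k x hx => ?_⟩
  have hdk : (0 : ℝ) ≤ (d : ℝ) ^ k := by positivity
  have hx1 : c₁ * (d : ℝ) ^ k ≤ |(x : ℝ)| :=
    (mul_le_mul_of_nonneg_right (le_max_left _ _) hdk).trans hx
  have hx2 : ((Rb + e) + Rb + 1) * (d : ℝ) ^ k ≤ |(x : ℝ)| :=
    (mul_le_mul_of_nonneg_right (le_max_right _ _) hdk).trans hx
  have hf := far_terms h hR hR0 hx2
  have heR : (0 : ℝ) < e := by exact_mod_cast he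
  have hne : ∀ j ≤ k, (Tm d m r)^[j] x ≠ e := by
    intro j hj h2
    have h3 := hf j hj
    rw [h2, abs_of_pos heR] at h3
    linarith
  constructor
  · rintro ⟨h2, k', hP, h3, h4⟩
    have hkk : k < k' := by
      by_contra hc
      exact hne k' (by omega) h3
    refine ⟨(h1 k x hx1).1 h2, k' - k, ?_, ?_, ?_⟩
    · show P (k + (k' - k))
      rwa [show k + (k' - k) = k' by omega]
    · rw [← Function.iterate_add_apply, show k' - k + k = k' by omega]
      exact h3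
    · intro j hj
      rw [← Function.iterate_add_apply]
      exact h4 _ (by omega)
  · rintro ⟨h2, k', hP, h3, h4⟩
    refine ⟨(h1 k x hx1).2 h2, k + k', hP, ?_, ?_⟩
    · rw [show k + k' = k' + k by omega, Function.iterate_add_apply]
      exact h3
    · intro j hj
      rcases le_or_gt j k with h5 | h5
      · exact hne j h5
      · have := h4 (j - k) (by omega)
        rwa [← Function.iterate_add_apply, show j - k + k = j by omega] at this

/-- the harmonic relation of the sets `HS`, uniformly in the sets of times -/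
theorem HS_harm (h : Adm d m r) (hm : ∀ i < d, 0 < m i) {e : ℤ} (he : 0 < e) :
    ∃ K t₀ : ℝ, 0 < K ∧ 1 ≤ t₀ ∧ ∀ (P : ℕ → Prop) (t : ℝ), t₀ ≤ t →
      |Fw (HS d m r e P) 1 t -
        (∑ i ∈ range d, Fw (HS d m r e (fun j => P (1 + j))) 1 (t + Real.log (|(m i : ℝ)| / d))) / d|
        ≤ K / t ^ 2 := by
  obtain ⟨c₀, hc⟩ := HS_step h hm he
  obtain ⟨K, t₀, hK, ht₀, hH⟩ := harm (c₀ := c₀) h
  refine ⟨K, t₀, hK, ht₀, fun P t ht => ?_⟩
  have hF : ∀ Q : ℕ → Prop, FInv d m r c₀ (HS d m r e Q) := fun Q k =>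
    ⟨fun _ => HS d m r e (fun j => Q (k + j)), fun x hx => hc Q k x hx⟩
  have := hH (HS d m r e P) (fun _ => HS d m r e (fun j => P (1 + j))) (fun i _ => hF _)
    (fun i _ x _ hx => by
      have h2 := hc P 1 x (by rwa [pow_one])
      rwa [Function.iterate_one] at h2) 1 (Or.inl rfl) t ht
  have e2 : ∀ i ∈ range d, Fw (HS d m r e (fun j => P (1 + j))) (1 * (m i).sign)
      (t + Real.log (|(m i : ℝ)| / d)) = Fw (HS d m r e (fun j => P (1 + j))) 1
      (t + Real.log (|(m i : ℝ)| / d)) := by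
    intro i hi
    rw [Int.sign_eq_one_of_pos (hm i (Finset.mem_range.1 hi)), mul_one]
  rw [Finset.sum_congr rfl e2] at this
  exact this

/-- `Fw ≤ 3` -/
theorem Fw_le3 (S : Set ℤ) (t : ℝ) : Fw S 1 t ≤ 3 := by
  have p1 : (1 : ℤ) = 1 ∨ (1 : ℤ) = -1 := Or.inl rfl
  have he := Real.exp_pos t
  rcases le_or_gt (1 / 2) (Real.exp t) with h1 | h1
  · rw [Fw_eq S p1, div_le_iff₀ he]
    have := T12.G_diff_le S p1 he (by linarith : Real.exp t ≤ 2 * Real.exp t)
    linarith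
  · have h2 : Fw S 1 t = 0 := by
      unfold Fw nw
      have : {x : ℤ | x ∈ S ∧ Real.exp t ≤ ((1 * x : ℤ) : ℝ) ∧ ((1 * x : ℤ) : ℝ) < 2 * Real.exp t ∧
          ((1 : ℕ) : ℤ) ∣ x - 0} = ∅ := by
        ext x
        simp only [Set.mem_ofPred_eq, Set.mem_empty_iff_false, iff_false]
        rintro ⟨_, h3, h4, _⟩
        rw [one_mul] at h3 h4
        have h5 : (0 : ℝ) < x := lt_of_lt_of_le he h3
        have h6 : (x : ℝ) < 1 := by linarith
        have h7 : 0 < x := by exact_mod_cast h5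
        have h8 : x < 1 := by exact_mod_cast h6
        omega
      rw [this]
      simp
    rw [h2]; norm_num

/-- iteration of a relation over words -/
theorem iter {G : ℕ → ℝ → ℝ} {ξ : ℕ → ℝ} {er : ℝ → ℝ} (hd : 2 ≤ d)
    (hG : ∀ N t, |G N t - (∑ i ∈ range d, G (N + 1) (t + ξ i)) / d| ≤ er t) (N : ℕ) (t : ℝ) :
    |G 0 t - (∑ w ∈ LW d N, G N (t + (w.map ξ).sum)) / (d : ℝ) ^ N| ≤
      ∑ j ∈ range N, (∑ w ∈ LW d j, er (t + (w.map ξ).sum)) / (d : ℝ) ^ j := by
  have hd0 : (0 : ℝ) < d := by exact_mod_cast (by omega : 0 < d)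
  induction N with
  | zero => simp [LW]
  | succ N ih =>
    rw [Finset.sum_range_succ]
    have e1 : (∑ w ∈ LW d (N + 1), G (N + 1) (t + (w.map ξ).sum)) / (d : ℝ) ^ (N + 1) =
        (∑ w ∈ LW d N, (∑ i ∈ range d, G (N + 1) (t + (w.map ξ).sum + ξ i)) / d) / (d : ℝ) ^ N := by
      rw [sum_LW_add]
      rw [← Finset.sum_div, div_div, mul_comm (d : ℝ), ← pow_succ]
      congr 1
      refine Finset.sum_congr rfl fun w _ => ?_
      rw [show (1 : ℕ) = 0 + 1 from rfl, sum_LW_succ]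
      refine Finset.sum_congr rfl fun i _ => ?_
      simp [LW, add_assoc]
    have e2 : G 0 t - (∑ w ∈ LW d (N + 1), G (N + 1) (t + (w.map ξ).sum)) / (d : ℝ) ^ (N + 1) =
        (G 0 t - (∑ w ∈ LW d N, G N (t + (w.map ξ).sum)) / (d : ℝ) ^ N) +
        (∑ w ∈ LW d N, (G N (t + (w.map ξ).sum) -
          (∑ i ∈ range d, G (N + 1) (t + (w.map ξ).sum + ξ i)) / d)) / (d : ℝ) ^ N := by
      rw [e1, Finset.sum_sub_distrib]
      ring
    rw [e2]
    refine (abs_add_le _ _).trans (add_le_add ih ?_)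
    rw [abs_div, abs_of_pos (pow_pos hd0 N)]
    apply div_le_div_of_nonneg_right _ (pow_pos hd0 N).le
    exact (Finset.abs_sum_le_sum_abs _ _).trans (Finset.sum_le_sum fun w _ => hG N _)

end Pool.Agent.T2h89.CL
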