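import Pool.Agent.H319R3.GC.W1
import Mathlib.Probability.CentralLimitTheorem

/-! Central limit theorem for words with independent uniform letters. -/

set_option autoImplicit false

namespace Pool.Agent.T2h89.CL
open Pool.Agent.H319R3.GC Finset Filter Topology
open MeasureTheory ProbabilityTheory

/-- the distribution of `g` for the uniform distribution on `s` -/
noncomputable def av {ι : Type*} (s : Finset ι) (g : ι → ℝ) : Measure ℝ :=
  (s.card : ENNReal)⁻¹ • ∑ i ∈ s, Measure.dirac (g i)

theorem av_prob {ι : Type*} {s : Finset ι} (hs : s.Nonempty) (g : ι → ℝ) :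
    IsProbabilityMeasure (av s g) := by
  constructor
  unfold av
  rw [Measure.smul_apply, Measure.finsetSum_apply]
  simp only [measure_univ, Finset.sum_const, nsmul_eq_mul, mul_one, smul_eq_mul]
  exact ENNReal.inv_mul_cancel (by simpa using hs.ne_empty) (by simp)

theorem av_int {ι : Type*} (s : Finset ι) (g : ι → ℝ) {E : Type*} [NormedAddCommGroup E]
    [NormedSpace ℝ E] [CompleteSpace E] (F : ℝ → E) :
    ∫ x, F x ∂(av s g) = (s.card : ℝ)⁻¹ • ∑ i ∈ s, F (g i) := by
  unfold av
  rw [integral_smul_measure, integral_finsetSum_measure]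
  · simp
  · intro i _
    exact integrable_dirac (by simp)

theorem av_real {ι : Type*} {s : Finset ι} (_hs : s.Nonempty) (g : ι → ℝ) {A : Set ℝ}
    (hA : MeasurableSet A) [DecidablePred fun i => g i ∈ A] :
    (av s g).real A = ((s.filter fun i => g i ∈ A).card : ℝ) / s.card := by
  classical
  have h1 : av s g A = (s.card : ENNReal)⁻¹ * ((s.filter fun i => g i ∈ A).card : ENNReal) := by
    unfold av
    rw [Measure.smul_apply, Measure.finsetSum_apply, smul_eq_mul]
    congr 1
    rw [Finset.card_filter]
    push_cast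
    refine Finset.sum_congr rfl fun i _ => ?_
    rw [Measure.dirac_apply' _ hA, Set.indicator_apply]
    rfl
  rw [measureReal_def, h1, ENNReal.toReal_mul, ENNReal.toReal_inv]
  simp only [ENNReal.toReal_natCast]
  rw [div_eq_inv_mul]

variable {d : ℕ}

theorem LW_ne (hd : 2 ≤ d) (N : ℕ) : (LW d N).Nonempty := by
  rw [← Finset.card_pos, card_LW]
  positivity

theorem cmgf (g : ℕ → ℝ) (s : ℂ) (b : ℕ) :
    ∑ w ∈ LW d b, Complex.exp (s * (((w.map g).sum : ℝ) : ℂ)) =
      (∑ j ∈ range d, Complex.exp (s * (g j : ℂ))) ^ b := by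
  induction b with
  | zero => simp [LW]
  | succ b ih =>
    rw [sum_LW_succ, pow_succ', Finset.sum_mul]
    refine Finset.sum_congr rfl fun i _ => ?_
    rw [← ih, Finset.mul_sum]
    refine Finset.sum_congr rfl fun w _ => ?_
    rw [← Complex.exp_add]
    congr 1
    simp only [List.map_cons, List.sum_cons]
    push_cast
    ring

theorem no_atom (x : ℝ) : (gaussianReal 0 1) {x} = 0 := by
  have : NullSingletonClass (gaussianReal 0 1) :=
    nullSingletonClass_gaussianReal (μ := 0) (v := 1) one_ne_zero
  exact measure_singleton x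

/-- the normalised distributions of the words converge to the normal distribution -/
theorem wclt_set (hd : 2 ≤ d) {g : ℕ → ℝ} (hg0 : ∑ j ∈ range d, g j = 0)
    (hg1 : ∑ j ∈ range d, g j ^ 2 = d) {A : Set ℝ} (hA : (gaussianReal 0 1) (frontier A) = 0) :
    Tendsto (fun N : ℕ => (av (LW d N) fun w => (√(N : ℝ))⁻¹ * (w.map g).sum).real A) atTop
      (𝓝 ((gaussianReal 0 1).real A)) := by
  have hd0 : (0 : ℝ) < d := by exact_mod_cast (by omega : 0 < d)
  have hr : (range d).Nonempty := by
    rw [Finset.nonempty_range_iff]; omega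
  have hp1 : IsProbabilityMeasure (av (range d) g) := av_prob hr g
  have hpN : ∀ N : ℕ, IsProbabilityMeasure (av (LW d N) fun w => (√(N : ℝ))⁻¹ * (w.map g).sum) :=
    fun N => av_prob (LW_ne hd N) _
  have hc := fun t : ℝ => tendsto_charFun_inv_sqrt_mul_pow (P := av (range d) g) (X := id)
    aemeasurable_id (by
      have := av_int (range d) g (fun x : ℝ => x)
      simp only [hg0, smul_zero] at this
      exact this) (by
      have := av_int (range d) g (fun x : ℝ => x ^ 2)
      rw [hg1, card_range, smul_eq_mul, inv_mul_cancel₀ hd0.ne'] at this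
      exact this) t
  have key : Tendsto (β := ProbabilityMeasure ℝ)
      (fun N : ℕ => ⟨av (LW d N) fun w => (√(N : ℝ))⁻¹ * (w.map g).sum, hpN N⟩) atTop
      (𝓝 ⟨gaussianReal 0 1, inferInstance⟩) := by
    refine ProbabilityMeasure.tendsto_iff_tendsto_charFun.2 fun t => ?_
    have hct := hc t
    rw [Measure.map_id] at hct
    have e1 : charFun (gaussianReal 0 1) t = Complex.exp (-(t : ℂ) ^ 2 / 2) := by
      rw [charFun_gaussianReal]
      congr 1
      push_cast
      ring
    simp only [ProbabilityMeasure.coe_mk]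
    rw [e1]
    refine hct.congr fun N => ?_
    rw [charFun_apply_real, charFun_apply_real, av_int, av_int, card_range, card_LW]
    have e2 : ∀ w ∈ LW d N, Complex.exp ((t : ℂ) * (((√(N : ℝ))⁻¹ * (w.map g).sum : ℝ) : ℂ) * Complex.I) =
        Complex.exp (((√(N : ℝ))⁻¹ * t : ℝ) * Complex.I * (((w.map g).sum : ℝ) : ℂ)) := by
      intro w _
      congr 1
      push_cast
      ring
    rw [Finset.sum_congr rfl e2, cmgf, Complex.real_smul, Complex.real_smul, mul_pow]
    congr 1
    · push_cast
      rw [inv_pow]
    · congr 1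
      refine Finset.sum_congr rfl fun j _ => ?_
      congr 1
      push_cast
      ring
  have h1 := ProbabilityMeasure.tendsto_measure_of_null_frontier_of_tendsto' key (E := A) hA
  have h2 := (ENNReal.tendsto_toReal (measure_ne_top (gaussianReal 0 1) A)).comp h1
  exact h2

/-- distribution function of the standard normal distribution -/
noncomputable def Phi (x : ℝ) : ℝ := (gaussianReal 0 1).real (Set.Iic x)

theorem Phi_mono : Monotone Phi := by
  intro x y h
  unfold Phi
  exact measureReal_mono (Set.Iic_subset_Iic.2 h)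

theorem Phi_nonneg (x : ℝ) : 0 ≤ Phi x := measureReal_nonneg

theorem Phi_le (x : ℝ) : Phi x ≤ 1 := measureReal_le_one

theorem Phi_continuous : Continuous Phi := by
  have h : Phi = fun x => cdf (gaussianReal 0 1) x := by
    funext x
    rw [cdf_eq_real]
    rfl
  rw [h]
  rw [continuous_iff_continuousAt]
  intro x
  have h1 : (cdf (gaussianReal 0 1)).measure {x} = 0 := by
    rw [measure_cdf]
    exact no_atom x
  rw [StieltjesFunction.measure_singleton, ENNReal.ofReal_eq_zero] at h1
  have hm : Monotone (cdf (gaussianReal 0 1)) := (cdf (gaussianReal 0 1)).mono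
  have h2 : Function.leftLim (cdf (gaussianReal 0 1)) x ≤ cdf (gaussianReal 0 1) x :=
    hm.leftLim_le le_rfl
  change ContinuousAt (cdf (gaussianReal 0 1)) x
  rw [hm.continuousAt_iff_leftLim_eq_rightLim, StieltjesFunction.rightLim_eq]
  linarith

/-- **central limit theorem for words**: `f` has mean `0` and variance `v > 0` -/
theorem word_clt (hd : 2 ≤ d) {f : ℕ → ℝ} {v : ℝ} (hv : 0 < v) (hf0 : ∑ j ∈ range d, f j = 0)
    (hf1 : ∑ j ∈ range d, f j ^ 2 = d * v) (x : ℝ) :
    Tendsto (fun N : ℕ => (((LW d N).filter fun w => (w.map f).sum ≤ x * √(v * N)).card : ℝ) / (d : ℝ) ^ N)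
      atTop (𝓝 (Phi x)) := by
  classical
  have hsv : 0 < √v := Real.sqrt_pos.2 hv
  have h1 := wclt_set (d := d) hd (g := fun j => f j / √v) (A := Set.Iic x)
    (by rw [← Finset.sum_div, hf0, zero_div])
    (by
      have : ∀ j ∈ range d, (f j / √v) ^ 2 = f j ^ 2 / v := by
        intro j _
        rw [div_pow, Real.sq_sqrt hv.le]
      rw [Finset.sum_congr rfl this, ← Finset.sum_div, hf1]
      field_simp)
    (by rw [frontier_Iic]; exact no_atom x)
  refine h1.congr' ?_
  filter_upwards [eventually_ge_atTop 1] with N hN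
  have hN0 : (0 : ℝ) < √(N : ℝ) := Real.sqrt_pos.2 (by exact_mod_cast hN)
  rw [av_real (LW_ne hd N) _ measurableSet_Iic, card_LW]
  push_cast
  congr 2
  congr 1
  apply Finset.filter_congr
  intro w _
  have e1 : (w.map fun j => f j / √v).sum = (w.map f).sum / √v := by
    clear * - w
    induction w with
    | nil => simp
    | cons a w ih => simp only [List.map_cons, List.sum_cons, ih, add_div]
  rw [Set.mem_Iic, e1, Real.sqrt_mul hv.le, inv_mul_le_iff₀ hN0, div_le_iff₀ hsv]
  constructor <;> intro h <;> nlinarith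

end Pool.Agent.T2h89.CL
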