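import Pool.Agent.T2h89.CL.A4
import Pool.Agent.T2h89.CL.W
import Pool.Agent.T2h89.LT2

/-!
The errors of the iterated harmonic relation, and the exceptional words.
-/

set_option autoImplicit false

namespace Pool.Agent.T2h89.CL
open Pool.Agent.H319R3.GC Pool.Agent.H319R3.DN Finset Filter Topology
open Pool.Agent.T2h89.LT (rho rho_pos rho_lt lam lam_bds log_m sum_log lPP hoeff)

variable {d : ℕ} {m r : ℕ → ℤ}

/-- the centred logarithms of the multipliers -/
noncomputable def fc (d : ℕ) (m : ℕ → ℤ) (j : ℕ) : ℝ := Real.log |(m j : ℝ)| - lam d m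

theorem fc_sum (h : Adm d m r) : ∑ j ∈ range d, fc d m j = 0 := by
  have hd0 : (0 : ℝ) < d := by exact_mod_cast (by have := h.two_le; omega : 0 < d)
  unfold fc
  rw [Finset.sum_sub_distrib, sum_log h, Finset.sum_const, card_range, nsmul_eq_mul]
  unfold lam
  field_simp
  ring

theorem fc_abs (h : Adm d m r) : ∀ j < d, |fc d m j| ≤ Real.log (PP d m) := by
  intro j hj
  obtain ⟨h1, h2⟩ := log_m h hj
  obtain ⟨h3, h4, _⟩ := lam_bds h
  unfold fc
  rw [abs_le]
  constructor <;> linarith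

theorem xi_sum (h : Adm d m r) : ∀ (w : List ℕ), (∀ i ∈ w, i < d) →
    (w.map fun i => Real.log (|(m i : ℝ)| / d)).sum = (w.map (fc d m)).sum - w.length * rho d m := by
  have hd0 : (0 : ℝ) < d := by exact_mod_cast (by have := h.two_le; omega : 0 < d)
  intro w
  induction w with
  | nil => intro _; simp
  | cons a w ih =>
    intro hw
    have ha := hw a (by simp)
    have h1 := ih (fun i hi => hw i (by simp [hi]))
    have hm0 : (0 : ℝ) < |(m a : ℝ)| :=
      abs_pos.2 (by exact_mod_cast Pool.Agent.N681.AI.m_ne0 h ha)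
    simp only [List.map_cons, List.sum_cons, List.length_cons]
    rw [h1, Real.log_div hm0.ne' hd0.ne']
    push_cast
    unfold fc rho
    ring

/-- the number of steps -/
noncomputable def Nt (d : ℕ) (m : ℕ → ℤ) (s : ℝ) : ℕ := ⌊(s ^ 4 - s ^ 3) / rho d m⌋₊

theorem Nt_bds (h : Adm d m r) {s : ℝ} (hs : 1 ≤ s) :
    rho d m * Nt d m s ≤ s ^ 4 - s ^ 3 ∧ s ^ 4 - s ^ 3 < rho d m * (Nt d m s + 1) := by
  have hρ := rho_pos h
  have h0 : 0 ≤ (s ^ 4 - s ^ 3) / rho d m := by
    apply div_nonneg _ hρ.le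
    nlinarith [pow_pos (by linarith : (0 : ℝ) < s) 3]
  have h1 := Nat.floor_le h0
  have h2 := Nat.lt_floor_add_one ((s ^ 4 - s ^ 3) / rho d m)
  rw [le_div_iff₀ hρ] at h1
  rw [div_lt_iff₀ hρ] at h2
  constructor
  · unfold Nt; linarith
  · unfold Nt; linarith

theorem Nt_tendsto (h : Adm d m r) : Tendsto (Nt d m) atTop atTop := by
  have hρ := rho_pos h
  unfold Nt
  refine tendsto_nat_floor_atTop.comp ?_
  apply Tendsto.atTop_div_const hρ
  have h1 : (fun s : ℝ => s ^ 4 - s ^ 3) = fun s : ℝ => s ^ 3 * (s - 1) := by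
    funext s; ring
  rw [h1]
  exact (tendsto_pow_atTop (by norm_num)).atTop_mul_atTop₀ (tendsto_atTop_add_const_right _ (-1) tendsto_id)

/-- the proportion of the exceptional words -/
theorem bad_frac (h : Adm d m r) {s c : ℝ} (hs : 0 < s) (hc : 0 < c) {j : ℕ}
    (hj : rho d m * j ≤ s ^ 4) :
    (((LW d j).filter fun w => c * s ^ 3 < |(w.map (fc d m)).sum|).card : ℝ) ≤
      (d : ℝ) ^ j * (2 * Real.exp (-(c ^ 2 * rho d m / (4 * Real.log (PP d m) ^ 2) * s ^ 2))) := by
  have hρ := rho_pos h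
  have hL := lPP h
  have h1 := hoeff (d := d) hL (fc_abs h) (fc_sum h) (b := j) (n := s ^ 4 / rho d m) (H := c * s ^ 3)
    (by positivity) (by rw [le_div_iff₀ hρ]; linarith) (by positivity)
  refine h1.trans (le_of_eq ?_)
  have e : (c * s ^ 3) ^ 2 / (4 * Real.log (PP d m) ^ 2 * (s ^ 4 / rho d m)) =
      c ^ 2 * rho d m / (4 * Real.log (PP d m) ^ 2) * s ^ 2 := by
    field_simp
  rw [e]
  ring

theorem exp_small {c : ℝ} (hc : 0 < c) (k : ℕ) :
    Tendsto (fun s : ℝ => s ^ (2 * k) * Real.exp (-(c * s ^ 2))) atTop (𝓝 0) := by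
  have h1 := (Real.tendsto_pow_mul_exp_neg_atTop_nhds_zero k).comp
    ((tendsto_pow_atTop (two_ne_zero)).const_mul_atTop hc : Tendsto (fun s : ℝ => c * s ^ 2) atTop atTop)
  have h2 := h1.const_mul ((1 / c) ^ k)
  rw [mul_zero] at h2
  refine h2.congr fun s => ?_
  simp only [Function.comp_apply]
  rw [mul_pow, ← pow_mul]
  have : (1 / c) ^ k * c ^ k = 1 := by rw [← mul_pow, one_div, inv_mul_cancel₀ hc.ne', one_pow]
  calc (1 / c) ^ k * (c ^ k * s ^ (2 * k) * Real.exp (-(c * s ^ 2)))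
      = ((1 / c) ^ k * c ^ k) * (s ^ (2 * k) * Real.exp (-(c * s ^ 2))) := by ring
    _ = _ := by rw [this, one_mul]

/-- the sum of the errors tends to zero -/
theorem err_small (h : Adm d m r) {K t₀ : ℝ} (hK : 0 < K) (ht₀ : 1 ≤ t₀) {er : ℝ → ℝ}
    (h1 : ∀ u, t₀ ≤ u → er u ≤ K / u ^ 2) (h2 : ∀ u, er u ≤ K) {ε : ℝ} (hε : 0 < ε) :
    ∀ᶠ s in (atTop : Filter ℝ), ∑ j ∈ range (Nt d m s), (∑ w ∈ LW d j,
      er (s ^ 4 + (w.map fun i => Real.log (|(m i : ℝ)| / d)).sum)) / (d : ℝ) ^ j ≤ ε := by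
  classical
  have hd0 : (0 : ℝ) < d := by exact_mod_cast (by have := h.two_le; omega : 0 < d)
  have hρ := rho_pos h
  have hL := lPP h
  set c₁ := (1 / 2 : ℝ) ^ 2 * rho d m / (4 * Real.log (PP d m) ^ 2) with hc₁
  have hc₁0 : 0 < c₁ := by rw [hc₁]; positivity
  have lim : Tendsto (fun s : ℝ => 4 * K / rho d m * (s ^ 2)⁻¹ +
      2 * K / rho d m * (s ^ (2 * 2) * Real.exp (-(c₁ * s ^ 2)))) atTop (𝓝 0) := by
    have e1 := (exp_small hc₁0 2).const_mul (2 * K / rho d m)
    have e2 : Tendsto (fun s : ℝ => (s ^ 2)⁻¹) atTop (𝓝 0) :=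
      tendsto_inv_atTop_zero.comp (tendsto_pow_atTop (two_ne_zero))
    have e3 := (e2.const_mul (4 * K / rho d m)).add e1
    simpa using e3
  filter_upwards [lim.eventually_le_const hε, eventually_ge_atTop 1, eventually_ge_atTop (2 * t₀)]
    with s hs1 hs2 hs3
  have hs0 : 0 < s := by linarith
  have hN := (Nt_bds h hs2).1
  refine le_trans ?_ hs1
  have hs13 : s ≤ s ^ 3 := by nlinarith [mul_pos hs0 hs0, sq_nonneg (s - 1)]
  have key : ∀ j ∈ range (Nt d m s), (∑ w ∈ LW d j,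
      er (s ^ 4 + (w.map fun i => Real.log (|(m i : ℝ)| / d)).sum)) / (d : ℝ) ^ j ≤
      4 * K / s ^ 6 + K * (2 * Real.exp (-(c₁ * s ^ 2))) := by
    intro j hj
    have hjN : (j : ℝ) ≤ Nt d m s := by exact_mod_cast (mem_range.1 hj).le
    have hj1 : rho d m * j ≤ s ^ 4 - s ^ 3 := (mul_le_mul_of_nonneg_left hjN hρ.le).trans hN
    have hdj : (0 : ℝ) < (d : ℝ) ^ j := by positivity
    rw [div_le_iff₀ hdj]
    have hb := bad_frac h (s := s) (c := 1 / 2) hs0 (by norm_num) (j := j)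
      (by linarith [pow_pos hs0 3])
    rw [← hc₁] at hb
    have hw : ∀ w ∈ LW d j, er (s ^ 4 + (w.map fun i => Real.log (|(m i : ℝ)| / d)).sum) ≤
        4 * K / s ^ 6 + K * (if 1 / 2 * s ^ 3 < |(w.map (fc d m)).sum| then 1 else 0) := by
      intro w hw
      obtain ⟨hw1, hw2⟩ := mem_LW.1 hw
      rw [xi_sum h w hw2, hw1]
      split_ifs with h3
      · have := h2 (s ^ 4 + ((w.map (fc d m)).sum - j * rho d m))
        have h4 : 0 ≤ 4 * K / s ^ 6 := by positivity
        linarith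
      · rw [not_lt, abs_le] at h3
        set u := s ^ 4 + ((w.map (fc d m)).sum - j * rho d m) with hu
        have hu1 : s ^ 3 / 2 ≤ u := by
          rw [hu]
          linarith [h3.1]
        have hu2 : t₀ ≤ u := by linarith
        rw [mul_zero, add_zero]
        refine (h1 u hu2).trans ?_
        have h5 : (s ^ 3 / 2) ^ 2 ≤ u ^ 2 := pow_le_pow_left₀ (by positivity) hu1 2
        calc K / u ^ 2 ≤ K / (s ^ 3 / 2) ^ 2 := by
              apply div_le_div_of_nonneg_left hK.le (by positivity) h5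
          _ = 4 * K / s ^ 6 := by field_simp; ring
    refine (Finset.sum_le_sum hw).trans ?_
    rw [Finset.sum_add_distrib, Finset.sum_const, card_LW, nsmul_eq_mul, ← Finset.mul_sum,
      Finset.sum_boole]
    push_cast
    have : K * (((LW d j).filter fun w => 1 / 2 * s ^ 3 < |(w.map (fc d m)).sum|).card : ℝ) ≤
        K * ((d : ℝ) ^ j * (2 * Real.exp (-(c₁ * s ^ 2)))) := mul_le_mul_of_nonneg_left hb hK.le
    linarith
  refine (Finset.sum_le_sum key).trans ?_
  rw [Finset.sum_const, card_range, nsmul_eq_mul]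
  have hN4 : (Nt d m s : ℝ) ≤ s ^ 4 / rho d m := by
    rw [le_div_iff₀ hρ]
    linarith [pow_pos hs0 3]
  have hpos : 0 ≤ 4 * K / s ^ 6 + K * (2 * Real.exp (-(c₁ * s ^ 2))) := by positivity
  refine (mul_le_mul_of_nonneg_right hN4 hpos).trans (le_of_eq ?_)
  field_simp
  ring

/-- the iterated harmonic relation of the sets `HS` -/
theorem HS_iter (h : Adm d m r) (hm : ∀ i < d, 0 < m i) {e : ℤ} (he : 0 < e) {ε : ℝ} (hε : 0 < ε) :
    ∀ᶠ s in (atTop : Filter ℝ), ∀ P : ℕ → Prop,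
      |Fw (HS d m r e P) 1 (s ^ 4) - (∑ w ∈ LW d (Nt d m s),
        Fw (HS d m r e (fun j => P (Nt d m s + j))) 1
          (s ^ 4 + (w.map fun i => Real.log (|(m i : ℝ)| / d)).sum)) / (d : ℝ) ^ (Nt d m s)| ≤ ε := by
  classical
  obtain ⟨K, t₀, hK, ht₀, hH⟩ := HS_harm h hm he
  have hd0 : (0 : ℝ) < d := by exact_mod_cast (by have := h.two_le; omega : 0 < d)
  set er : ℝ → ℝ := fun u => if t₀ ≤ u then K / u ^ 2 else 6 with her
  have h1 : ∀ u, t₀ ≤ u → er u ≤ (K + 6) / u ^ 2 := by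
    intro u hu
    simp only [her, if_pos hu]
    have : 0 < u := by linarith
    gcongr
    linarith
  have h2 : ∀ u, er u ≤ K + 6 := by
    intro u
    simp only [her]
    split_ifs with hu
    · have h3 : 1 ≤ u := by linarith
      have h4 : K / u ^ 2 ≤ K := div_le_self hK.le (by nlinarith)
      linarith
    · linarith
  filter_upwards [err_small h (K := K + 6) (by linarith) ht₀ h1 h2 hε] with s hs P
  refine le_trans ?_ hs
  have hG : ∀ (N : ℕ) (t : ℝ), |Fw (HS d m r e (fun j => P (N + j))) 1 t -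
      (∑ i ∈ range d, Fw (HS d m r e (fun j => P (N + 1 + j))) 1
        (t + (fun i => Real.log (|(m i : ℝ)| / d)) i)) / d| ≤ er t := by
    intro N t
    simp only [her]
    split_ifs with ht
    · have := hH (fun j => P (N + j)) t ht
      simp only [← add_assoc] at this
      exact this
    · have a1 := Fw_nonneg (HS d m r e (fun j => P (N + j))) 1 t
      have a2 := Fw_le3 (HS d m r e (fun j => P (N + j))) t
      have a3 : 0 ≤ (∑ i ∈ range d, Fw (HS d m r e (fun j => P (N + 1 + j))) 1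
        (t + Real.log (|(m i : ℝ)| / d))) / d :=
        div_nonneg (Finset.sum_nonneg fun i _ => Fw_nonneg _ _ _) hd0.le
      have a4 : (∑ i ∈ range d, Fw (HS d m r e (fun j => P (N + 1 + j))) 1
        (t + Real.log (|(m i : ℝ)| / d))) / d ≤ 3 := by
        rw [div_le_iff₀ hd0]
        calc (∑ i ∈ range d, Fw (HS d m r e (fun j => P (N + 1 + j))) 1
              (t + Real.log (|(m i : ℝ)| / d))) ≤ ∑ i ∈ range d, (3 : ℝ) :=
              Finset.sum_le_sum fun i _ => Fw_le3 _ _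
          _ = 3 * d := by rw [Finset.sum_const, card_range, nsmul_eq_mul, mul_comm]
      rw [abs_le]
      constructor <;> linarith
  have := iter (G := fun N t => Fw (HS d m r e (fun j => P (N + j))) 1 t) h.two_le hG
    (Nt d m s) (s ^ 4)
  simp only [zero_add] at this
  exact this

end Pool.Agent.T2h89.CL
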