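import Pool.Agent.T2h89.CL.A5
import Pool.Agent.T2h89.LT8

/-!
Concentration of the first time of the minimum.
-/

set_option autoImplicit false

namespace Pool.Agent.T2h89.CL
open Pool.Agent.H319R3.GC Pool.Agent.H319R3.DN Finset Filter Topology
open Pool.Agent.T2h89.LT (rho rho_pos rho_lt lam Str AA AA_pos law2 fin_le)
open Pool.Agent.N681.AI (Lm Lm_ainv exists_Rb far_terms m_ne0 step_lower)

variable {d : ℕ} {m r : ℕ → ℤ}

theorem hit_bounded (d : ℕ) (m r : ℕ → ℤ) (e : ℤ) (y : ℝ) : ∃ Kk : ℕ, ∀ z : ℤ, |(z : ℝ)| ≤ y →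
    z ∈ Lm d m r e → ∃ k ≤ Kk, (Tm d m r)^[k] z = e := by
  classical
  have hfin : {z : ℤ | |(z : ℝ)| ≤ y}.Finite := fin_le y _ fun x hx => hx
  set f : ℤ → ℕ := fun z => if h : ∃ k, (Tm d m r)^[k] z = e then Nat.find h else 0 with hf
  refine ⟨hfin.toFinset.sup f, fun z hz hL => ⟨f z, ?_, ?_⟩⟩
  · exact Finset.le_sup (f := f) ((Set.Finite.mem_toFinset hfin).2 hz)
  · have h2 : ∃ k, (Tm d m r)^[k] z = e := hL.2
    simp only [hf, dif_pos h2]
    exact Nat.find_spec h2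

/-- the first time of the minimum on straight trajectories -/
theorem first_time (h : Adm d m r) {e : ℤ} (he : 0 < e) {y : ℝ} (hy1 : 1 ≤ y) (hey : (e : ℝ) ≤ y) :
    ∃ C : ℝ, 0 ≤ C ∧ ∀ (ψ : ℝ → ℝ) (n : ℤ) (k : ℕ), n ∈ Lm d m r e → Str d m r y ψ n → y < |(n : ℝ)| →
      (Tm d m r)^[k] n = e → (∀ j < k, (Tm d m r)^[j] n ≠ e) →
      |(rho d m * k - Real.log |(n : ℝ)|)| ≤ ψ (Real.log |(n : ℝ)|) + C := by
  obtain ⟨Rb, hR0, hR⟩ := exists_Rb d r
  obtain ⟨Kk, hKk⟩ := hit_bounded d m r e y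
  have hρ := rho_pos h
  have heR : (0 : ℝ) < e := by exact_mod_cast he
  have hd1 : (1 : ℝ) ≤ d := by exact_mod_cast (by have := h.two_le; omega : 1 ≤ d)
  have hdy : 1 ≤ d * y + Rb := by nlinarith
  have hlog := Real.log_nonneg hdy
  refine ⟨Real.log (d * y + Rb) + rho d m * (1 + Kk), by positivity, ?_⟩
  intro ψ n k hn hS hny hk hk'
  classical
  obtain ⟨hS1, hS2⟩ := hS
  obtain ⟨k₁, hk₁s, hk₁m⟩ : ∃ k₁ : ℕ, |(((Tm d m r)^[k₁] n : ℤ) : ℝ)| ≤ y ∧
      ∀ l < k₁, y < |(((Tm d m r)^[l] n : ℤ) : ℝ)| :=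
    ⟨Nat.find hS1, Nat.find_spec hS1, fun l hl => not_le.1 (Nat.find_min hS1 hl)⟩
  have hpos : 1 ≤ k₁ := by
    by_contra hc
    have h0 : k₁ = 0 := by omega
    rw [h0] at hk₁s
    simp only [Function.iterate_zero, id] at hk₁s
    linarith
  have hkk : k₁ ≤ k := by
    by_contra hc
    have h1 := hk₁m k (by omega)
    rw [hk, abs_of_pos heR] at h1
    linarith
  have hL1 : (Tm d m r)^[k₁] n ∈ Lm d m r e := by
    refine ⟨fun j => ?_, k - k₁, ?_⟩
    · rw [← Function.iterate_add_apply]; exact hn.1 _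
    · rw [← Function.iterate_add_apply, Nat.sub_add_cancel hkk]; exact hk
  obtain ⟨k₂, hk₂, hk₂e⟩ := hKk _ hk₁s hL1
  have hkk2 : k ≤ k₁ + Kk := by
    by_contra hc
    refine hk' (k₂ + k₁) (by omega) ?_
    rw [Function.iterate_add_apply]
    exact hk₂e
  obtain ⟨k₀, rfl⟩ : ∃ k₀, k₁ = k₀ + 1 := ⟨k₁ - 1, by omega⟩
  have h3 := hS2 0 k₀ (Nat.zero_le _) (fun l hl => hk₁m l (by omega))
  simp only [Function.iterate_zero, id, Nat.cast_zero, sub_zero] at h3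
  have h4 := hk₁m k₀ (by omega)
  have h5 : |(((Tm d m r)^[k₀] n : ℤ) : ℝ)| ≤ d * y + Rb := by
    have h6 := step_lower h hR ((Tm d m r)^[k₀] n)
    rw [← Function.iterate_succ_apply' (Tm d m r) k₀ n] at h6
    refine h6.trans ?_
    have h7 : (d : ℝ) * |(((Tm d m r)^[k₀ + 1] n : ℤ) : ℝ)| ≤ d * y :=
      mul_le_mul_of_nonneg_left hk₁s (by linarith)
    linarith
  have h8 : 0 ≤ Real.log |(((Tm d m r)^[k₀] n : ℤ) : ℝ)| := Real.log_nonneg (by linarith)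
  have h9 : Real.log |(((Tm d m r)^[k₀] n : ℤ) : ℝ)| ≤ Real.log (d * y + Rb) :=
    Real.log_le_log (by linarith) h5
  have h10 : ((k₀ : ℝ) + 1) ≤ k := by exact_mod_cast hkk
  have h11 : (k : ℝ) ≤ k₀ + 1 + Kk := by exact_mod_cast hkk2
  have h12 : rho d m * ((k₀ : ℝ) + 1) ≤ rho d m * k := mul_le_mul_of_nonneg_left h10 hρ.le
  have h13 : rho d m * k ≤ rho d m * (k₀ + 1 + Kk) := mul_le_mul_of_nonneg_left h11 hρ.le
  rw [abs_le] at h3 ⊢
  constructor
  · linarith [h3.1]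
  · linarith [h3.2]

theorem ev_log {c : ℝ} (hc : 0 < c) : ∀ᶠ s in (atTop : Filter ℝ), Real.log s ≤ c * s := by
  filter_upwards [Real.isLittleO_log_id_atTop.bound hc, eventually_ge_atTop 1] with s hs h1
  rw [Real.norm_eq_abs, id, Real.norm_eq_abs, abs_of_pos (by linarith : 0 < s)] at hs
  exact (le_abs_self _).trans hs

/-- **concentration**: for `n` at the height `u`, `s³ / 2 ≤ u ≤ 2 s³`, the first time of the minimum `e` is `u / ρ` up to
`δ s²`, but for a small proportion of `n` -/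
theorem conc (h : Adm d m r) {σ η : ℝ} (hσ : 0 ≤ σ) (hη0 : 0 ≤ η) (hη1 : η < 1)
    (hsum : ∑ j ∈ range d, (|(m j : ℝ)| / d) ^ σ ≤ (d : ℝ) ^ η) {e : ℤ} (he : 0 < e)
    {ε δ : ℝ} (hε : 0 < ε) (hδ : 0 < δ) :
    ∀ᶠ s in (atTop : Filter ℝ), ∀ u : ℝ, s ^ 3 / 2 ≤ u → u ≤ 2 * s ^ 3 → ∀ P : ℕ → Prop,
      (∀ k : ℕ, |rho d m * k - u| ≤ δ * s ^ 2 → ¬ P k) → Fw (HS d m r e P) 1 u ≤ ε := by
  obtain ⟨C, hC, hlaw⟩ := law2 h hσ hη0 hη1 hsum 1
  have hA := AA_pos h 1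
  set A := AA d m 1 with hAdef
  have heR : (0 : ℝ) < e := by exact_mod_cast he
  set y : ℝ := max (max 2 (e : ℝ)) (Real.exp (2 * C / ε)) with hy
  have hy2 : 2 ≤ y := (le_max_left _ _).trans (le_max_left _ _)
  have hye : (e : ℝ) ≤ y := (le_max_right _ _).trans (le_max_left _ _)
  have hyC : 2 * C / ε ≤ Real.log y := by
    rw [Real.le_log_iff_exp_le (by linarith)]
    exact le_max_right _ _
  have hly : 0 < Real.log y := Real.log_pos (by linarith)
  obtain ⟨C₁, hC₁, hft⟩ := first_time h he (by linarith : 1 ≤ y) hye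
  have hδ3 : 0 < δ / 3 := by linarith
  filter_upwards [ev_log (c := (δ / 3 / A) ^ 2 / 18) (by positivity), eventually_ge_atTop 3,
    eventually_ge_atTop y, eventually_ge_atTop (C₁ / (δ / 3)), eventually_ge_atTop (1 / (δ / 3)),
    eventually_ge_atTop (6 * Real.log 3 / (δ / 3 / A) ^ 2)]
    with s hs1 hs2 hs3 hs4 hs5 hs6 u hu1 hu2 P hP
  have p1 : (1 : ℤ) = 1 ∨ (1 : ℤ) = -1 := Or.inl rfl
  have hs0 : 0 < s := by linarith
  have hss : s ≤ s ^ 2 := by nlinarith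
  have hs3' : 3 * s ≤ s ^ 3 := by nlinarith [mul_pos hs0 hs0, sq_nonneg (s - 1)]
  have hu0 : 1 ≤ u := by linarith
  have heu := Real.exp_pos u
  have hexp : u + 1 ≤ Real.exp u := Real.add_one_le_exp u
  -- the elements of the window are not straight
  have hsub : {x : ℤ | x ∈ HS d m r e P ∧ Real.exp u ≤ ((1 * x : ℤ) : ℝ) ∧
      ((1 * x : ℤ) : ℝ) < 2 * Real.exp u ∧ ((1 : ℕ) : ℤ) ∣ x - 0} ⊆
      {x : ℤ | |(x : ℝ)| ≤ 2 * Real.exp u ∧
        ¬ Str d m r y (fun L => AA d m 1 * √(L * Real.log L)) x} := by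
    rintro n ⟨⟨hn, k, hk1, hk2, hk3⟩, hn1, hn2, -⟩
    rw [one_mul] at hn1 hn2
    have hn0 : (0 : ℝ) < n := by linarith
    refine ⟨by rw [abs_of_pos hn0]; exact hn2.le, fun hS => ?_⟩
    have hny : y < |(n : ℝ)| := by
      rw [abs_of_pos hn0]
      linarith
    have h1 := hft _ n k hn hS hny hk2 hk3
    beta_reduce at h1
    rw [abs_of_pos hn0] at h1
    set L := Real.log (n : ℝ) with hL
    have hL1 : u ≤ L := by
      rw [hL, Real.le_log_iff_exp_le hn0]; exact hn1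
    have hL2 : L ≤ u + Real.log 2 := by
      rw [hL, ← Real.log_exp u, ← Real.log_mul heu.ne' (by norm_num)]
      apply Real.log_le_log hn0
      linarith
    have hlog2 : Real.log 2 ≤ 1 := by
      have := Real.log_two_lt_d9; linarith
    have hL3 : L ≤ 3 * s ^ 3 := by linarith
    have hL0 : 1 ≤ L := by linarith
    have hψ : AA d m 1 * √(L * Real.log L) ≤ δ / 3 * s ^ 2 := by
      rw [← hAdef, ← le_div_iff₀' hA]
      apply Real.sqrt_le_iff.2
      constructor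
      · positivity
      · have hl1 : Real.log L ≤ Real.log (3 * s ^ 3) := Real.log_le_log (by linarith) hL3
        have hl2 : Real.log (3 * s ^ 3) = Real.log 3 + 3 * Real.log s := by
          rw [Real.log_mul (by norm_num) (by positivity), Real.log_pow]
          norm_num
        have hl0 : 0 ≤ Real.log L := Real.log_nonneg hL0
        have hl3 : Real.log L ≤ (δ / 3 / A) ^ 2 / 3 * s := by
          rw [div_le_iff₀ (by positivity)] at hs6
          rw [hl2] at hl1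
          linarith
        calc L * Real.log L ≤ 3 * s ^ 3 * ((δ / 3 / A) ^ 2 / 3 * s) :=
              mul_le_mul hL3 hl3 hl0 (by positivity)
          _ = (δ / 3 * s ^ 2 / A) ^ 2 := by field_simp
    rw [div_le_iff₀ hδ3] at hs4 hs5
    refine hP k ?_ hk1
    rw [abs_le] at h1 ⊢
    have q1 : C₁ ≤ δ / 3 * s ^ 2 := by nlinarith
    have q2 : 1 ≤ δ / 3 * s ^ 2 := by nlinarith
    constructor
    · linarith [h1.1]
    · linarith [h1.2]
  have hfin : {x : ℤ | |(x : ℝ)| ≤ 2 * Real.exp u ∧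
        ¬ Str d m r y (fun L => AA d m 1 * √(L * Real.log L)) x}.Finite :=
    fin_le (2 * Real.exp u) _ fun x hx => hx.1
  have h2 := Set.ncard_le_ncard hsub hfin
  have h3 := hlaw (2 * Real.exp u) y (by linarith) hy2
  unfold Fw nw
  rw [div_le_iff₀ heu]
  have h4 : ({x : ℤ | x ∈ HS d m r e P ∧ Real.exp u ≤ ((1 * x : ℤ) : ℝ) ∧
      ((1 * x : ℤ) : ℝ) < 2 * Real.exp u ∧ ((1 : ℕ) : ℤ) ∣ x - 0}.ncard : ℝ) ≤
      ({x : ℤ | |(x : ℝ)| ≤ 2 * Real.exp u ∧
        ¬ Str d m r y (fun L => AA d m 1 * √(L * Real.log L)) x}.ncard : ℝ) := by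
    exact_mod_cast h2
  refine h4.trans (h3.trans ?_)
  rw [pow_one, div_le_iff₀ hly]
  rw [div_le_iff₀ hε] at hyC
  nlinarith

end Pool.Agent.T2h89.CL
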