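import Pool.Agent.T2h89.CL.A6

/-!
The limit of the window densities of the orbits with a given minimum and a bound for the first time of the minimum.
-/

set_option autoImplicit false

namespace Pool.Agent.T2h89.CL
open Pool.Agent.H319R3.GC Pool.Agent.H319R3.DN Finset Filter Topology
open Pool.Agent.T2h89.LT (rho rho_pos rho_lt lam Str AA AA_pos law2 fin_le lPP)
open Pool.Agent.N681.AI (Lm Lm_ainv exists_Rb far_terms m_ne0 step_lower)

variable {d : ℕ} {m r : ℕ → ℤ}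

theorem win_fin1 (S : Set ℤ) (t : ℝ) : {x : ℤ | x ∈ S ∧ Real.exp t ≤ ((1 * x : ℤ) : ℝ) ∧
      ((1 * x : ℤ) : ℝ) < 2 * Real.exp t ∧ ((1 : ℕ) : ℤ) ∣ x - 0}.Finite := by
  apply fin_le (2 * Real.exp t)
  rintro x ⟨_, h1, h2, _⟩
  rw [one_mul] at h1 h2
  have := Real.exp_pos t
  rw [abs_of_pos (by linarith)]
  exact h2.le

/-- comparison of window densities -/
theorem Fw_le_add {S S₁ S₂ : Set ℤ} {t : ℝ} (hs : ∀ n : ℤ, Real.exp t ≤ n → (n : ℝ) < 2 * Real.exp t →
    n ∈ S → n ∈ S₁ ∨ n ∈ S₂) : Fw S 1 t ≤ Fw S₁ 1 t + Fw S₂ 1 t := by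
  unfold Fw nw
  rw [← add_div]
  apply div_le_div_of_nonneg_right _ (Real.exp_pos t).le
  have h1 := Set.ncard_union_le
    {x : ℤ | x ∈ S₁ ∧ Real.exp t ≤ ((1 * x : ℤ) : ℝ) ∧
      ((1 * x : ℤ) : ℝ) < 2 * Real.exp t ∧ ((1 : ℕ) : ℤ) ∣ x - 0}
    {x : ℤ | x ∈ S₂ ∧ Real.exp t ≤ ((1 * x : ℤ) : ℝ) ∧
      ((1 * x : ℤ) : ℝ) < 2 * Real.exp t ∧ ((1 : ℕ) : ℤ) ∣ x - 0}
  have h2 : {x : ℤ | x ∈ S ∧ Real.exp t ≤ ((1 * x : ℤ) : ℝ) ∧
      ((1 * x : ℤ) : ℝ) < 2 * Real.exp t ∧ ((1 : ℕ) : ℤ) ∣ x - 0} ⊆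
      {x : ℤ | x ∈ S₁ ∧ Real.exp t ≤ ((1 * x : ℤ) : ℝ) ∧
      ((1 * x : ℤ) : ℝ) < 2 * Real.exp t ∧ ((1 : ℕ) : ℤ) ∣ x - 0} ∪
      {x : ℤ | x ∈ S₂ ∧ Real.exp t ≤ ((1 * x : ℤ) : ℝ) ∧
      ((1 * x : ℤ) : ℝ) < 2 * Real.exp t ∧ ((1 : ℕ) : ℤ) ∣ x - 0} := by
    rintro x ⟨h3, h4, h5, h6⟩
    rcases hs x (by simpa using h4) (by simpa using h5) h3 with h7 | h7
    · exact Or.inl ⟨h7, h4, h5, h6⟩
    · exact Or.inr ⟨h7, h4, h5, h6⟩
  have h3 := Set.ncard_le_ncard h2 ((win_fin1 S₁ t).union (win_fin1 S₂ t))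
  exact_mod_cast h3.trans h1

theorem Fw_empty (t : ℝ) : Fw (∅ : Set ℤ) 1 t = 0 := by
  unfold Fw nw
  simp

theorem Fw_mono {S S₁ : Set ℤ} {t : ℝ} (hs : ∀ n : ℤ, Real.exp t ≤ n → (n : ℝ) < 2 * Real.exp t →
    n ∈ S → n ∈ S₁) : Fw S 1 t ≤ Fw S₁ 1 t := by
  have := Fw_le_add (S := S) (S₁ := S₁) (S₂ := ∅) (t := t) (fun n h1 h2 h3 => Or.inl (hs n h1 h2 h3))
  rwa [Fw_empty, add_zero] at this

/-- every element of `Lm` is in `HS P` or in `HS (¬ P)` -/
theorem Lm_split (e : ℤ) (P : ℕ → Prop) (n : ℤ) (hn : n ∈ Lm d m r e) :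
    n ∈ HS d m r e P ∨ n ∈ HS d m r e (fun k => ¬ P k) := by
  classical
  have h2 : ∃ k, (Tm d m r)^[k] n = e := hn.2
  have h3 := Nat.find_spec h2
  have h4 : ∀ j < Nat.find h2, (Tm d m r)^[j] n ≠ e := fun j hj => Nat.find_min h2 hj
  by_cases hP : P (Nat.find h2)
  · exact Or.inl ⟨hn, _, hP, h3, h4⟩
  · exact Or.inr ⟨hn, _, hP, h3, h4⟩

theorem sqN (h : Adm d m r) {v s : ℝ} (hv : 0 < v) (hs : 1 ≤ s) :
    √(v * Nt d m s) ≤ √(v / rho d m) * s ^ 2 ∧
      √(v / rho d m) * s ^ 2 - √(v * Nt d m s) ≤ √(v / rho d m) * (s + rho d m) := by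
  have hρ := rho_pos h
  obtain ⟨h1, h2⟩ := Nt_bds h hs
  have hs0 : 0 < s := by linarith
  have hs3 := pow_pos hs0 3
  set q := √(v / rho d m) with hq
  have hq0 : 0 < q := Real.sqrt_pos.2 (by positivity)
  have hq2 : q ^ 2 * rho d m = v := by
    rw [hq, Real.sq_sqrt (by positivity)]; field_simp
  set z := √(v * Nt d m s) with hz
  have hz0 : 0 ≤ z := Real.sqrt_nonneg _
  have hz2 : z ^ 2 = q ^ 2 * (rho d m * Nt d m s) := by
    rw [hz, Real.sq_sqrt (by positivity), ← mul_assoc, hq2]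
  have hqq : 0 < q ^ 2 := by positivity
  have hz3 : z ^ 2 ≤ (q * s ^ 2) ^ 2 := by
    rw [hz2, mul_pow]
    apply mul_le_mul_of_nonneg_left _ hqq.le
    have : (s ^ 2) ^ 2 = s ^ 4 := by ring
    rw [this]; linarith
  have hle : z ≤ q * s ^ 2 := by
    have := abs_le_of_sq_le_sq' hz3 (by positivity)
    exact this.2
  refine ⟨hle, ?_⟩
  have h3 : (q * s ^ 2 - z) * (q * s ^ 2) ≤ q ^ 2 * (s ^ 3 + rho d m) := by
    have h4 : (q * s ^ 2 - z) * (q * s ^ 2) ≤ (q * s ^ 2 - z) * (q * s ^ 2 + z) :=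
      mul_le_mul_of_nonneg_left (by linarith) (by linarith)
    have h5 : (q * s ^ 2 - z) * (q * s ^ 2 + z) = q ^ 2 * s ^ 4 - z ^ 2 := by ring
    rw [h5, hz2] at h4
    have h6 : q ^ 2 * s ^ 4 - q ^ 2 * (rho d m * Nt d m s) = q ^ 2 * (s ^ 4 - rho d m * Nt d m s) := by
      ring
    rw [h6] at h4
    refine h4.trans (mul_le_mul_of_nonneg_left (by linarith) hqq.le)
  have h7 : q ^ 2 * (s ^ 3 + rho d m) ≤ (q * (s + rho d m)) * (q * s ^ 2) := by
    have h8 : (q * (s + rho d m)) * (q * s ^ 2) = q ^ 2 * (s ^ 3 + rho d m * s ^ 2) := by ring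
    rw [h8]
    apply mul_le_mul_of_nonneg_left _ hqq.le
    have : rho d m * 1 ≤ rho d m * s ^ 2 := mul_le_mul_of_nonneg_left (by nlinarith) hρ.le
    linarith
  exact le_of_mul_le_mul_right (h3.trans h7) (by positivity)

/-- the window densities of the sets of the orbits with minimum `e` and the first time of the minimum in a shift of `Q`
tend to `D`, uniformly in the shift -/
def UD (d : ℕ) (m r : ℕ → ℤ) (e : ℤ) (Q : ℕ → Prop) (D : ℝ) : Prop :=
  ∀ ε : ℝ, 0 < ε → ∀ᶠ u in (atTop : Filter ℝ), ∀ N : ℕ,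
    |Fw (HS d m r e (fun j => Q (N + j))) 1 u - D| ≤ ε

/-- the threshold -/
def thr (d : ℕ) (m : ℕ → ℤ) (v x s : ℝ) (k : ℕ) : Prop :=
  rho d m * k ≤ s ^ 4 + x * (√(v / rho d m) * s ^ 2)

/-- the heights after `N` steps -/
theorem heights (h : Adm d m r) : ∀ᶠ s in (atTop : Filter ℝ), ∀ w ∈ LW d (Nt d m s),
    (s ^ 4 + (w.map fun i => Real.log (|(m i : ℝ)| / d)).sum =
      s ^ 4 - rho d m * Nt d m s + (w.map (fc d m)).sum) ∧
    (¬ 1 / 4 * s ^ 3 < |(w.map (fc d m)).sum| →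
      s ^ 3 / 2 ≤ s ^ 4 + (w.map fun i => Real.log (|(m i : ℝ)| / d)).sum ∧
      s ^ 4 + (w.map fun i => Real.log (|(m i : ℝ)| / d)).sum ≤ 2 * s ^ 3) := by
  have hρ := rho_pos h
  filter_upwards [eventually_ge_atTop 1, eventually_ge_atTop (2 * rho d m)] with s hs hs2 w hw
  obtain ⟨hw1, hw2⟩ := mem_LW.1 hw
  obtain ⟨h1, h2⟩ := Nt_bds h hs
  have e1 : s ^ 4 + (w.map fun i => Real.log (|(m i : ℝ)| / d)).sum =
      s ^ 4 - rho d m * Nt d m s + (w.map (fc d m)).sum := by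
    rw [xi_sum h w hw2, hw1]; ring
  refine ⟨e1, fun hb => ?_⟩
  rw [e1]
  rw [not_lt, abs_le] at hb
  have hss : s ≤ s ^ 3 := by nlinarith [mul_pos (by linarith : (0:ℝ) < s) (by linarith : (0:ℝ) < s), sq_nonneg (s - 1)]
  constructor
  · linarith [hb.1]
  · linarith [hb.2]

/-- the upper bound -/
theorem upper (h : Adm d m r) {σ η : ℝ} (hσ : 0 ≤ σ) (hη0 : 0 ≤ η) (hη1 : η < 1)
    (hsum : ∑ j ∈ range d, (|(m j : ℝ)| / d) ^ σ ≤ (d : ℝ) ^ η) {e : ℤ} (he : 0 < e)
    {v : ℝ} (hv : 0 < v) {Q : ℕ → Prop} {D : ℝ} (hD0 : 0 ≤ D) (hD : UD d m r e Q D)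
    {x x' : ℝ} (hx : x < x') {ε : ℝ} (hε : 0 < ε) :
    ∀ᶠ s in (atTop : Filter ℝ), (∑ w ∈ LW d (Nt d m s),
        Fw (HS d m r e (fun j => Q (Nt d m s + j) ∧ thr d m v x s (Nt d m s + j))) 1
          (s ^ 4 + (w.map fun i => Real.log (|(m i : ℝ)| / d)).sum)) / (d : ℝ) ^ (Nt d m s) ≤
      D * ((((LW d (Nt d m s)).filter fun w => (w.map (fc d m)).sum ≤ x' * √(v * Nt d m s)).card : ℝ) /
        (d : ℝ) ^ (Nt d m s)) + 2 * ε +
        3 * ((((LW d (Nt d m s)).filter fun w => 1 / 4 * s ^ 3 < |(w.map (fc d m)).sum|).card : ℝ) /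
          (d : ℝ) ^ (Nt d m s)) := by
  classical
  have hρ := rho_pos h
  have hd0 : (0 : ℝ) < d := by exact_mod_cast (by have := h.two_le; omega : 0 < d)
  set q := √(v / rho d m) with hq
  have hq0 : 0 < q := Real.sqrt_pos.2 (by positivity)
  set δ := (x' - x) * q / 2 with hδ
  have hxx : 0 < x' - x := by linarith
  have hδ0 : 0 < δ := by rw [hδ]; positivity
  obtain ⟨u₁, hu₁⟩ := Filter.eventually_atTop.1 (hD ε hε)
  filter_upwards [conc h hσ hη0 hη1 hsum he hε hδ0, heights h, eventually_ge_atTop 1,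
    eventually_ge_atTop (2 * u₁), eventually_ge_atTop (2 * (|x'| * (1 + rho d m)) / (x' - x))]
    with s hc hh hs1 hs2 hs3
  have hs0 : 0 < s := by linarith
  obtain ⟨hz1, hz2⟩ := sqN h hv hs1
  obtain ⟨hN1, hN2⟩ := Nt_bds h hs1
  rw [← hq] at hz1 hz2
  set N := Nt d m s with hN
  set z := √(v * (N : ℝ)) with hz
  have hdN : (0 : ℝ) < (d : ℝ) ^ N := by positivity
  have hss : s ≤ s ^ 3 := by nlinarith [mul_pos hs0 hs0, sq_nonneg (s - 1)]
  -- the comparison of the normalisations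
  have hcmp : x * (q * s ^ 2) + δ * s ^ 2 ≤ x' * z := by
    rw [div_le_iff₀ hxx] at hs3
    have h1 : x' * z ≥ x' * (q * s ^ 2) - |x'| * (q * (s + rho d m)) := by
      have h2 : x' * (q * s ^ 2) - x' * z = x' * (q * s ^ 2 - z) := by ring
      have h3 : x' * (q * s ^ 2 - z) ≤ |x'| * (q * (s + rho d m)) :=
        (mul_le_mul_of_nonneg_right (le_abs_self _) (by linarith)).trans
          (mul_le_mul_of_nonneg_left hz2 (abs_nonneg _))
      linarith
    have h4 : |x'| * (q * (s + rho d m)) ≤ δ * s ^ 2 := by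
      have h5 : |x'| * (s + rho d m) ≤ |x'| * (1 + rho d m) * s := by
        have : rho d m ≤ rho d m * s := by nlinarith
        nlinarith [abs_nonneg x']
      have h6 : |x'| * (1 + rho d m) * s ≤ (x' - x) / 2 * s ^ 2 := by nlinarith
      have h7 := mul_le_mul_of_nonneg_left (h5.trans h6) hq0.le
      rw [hδ]
      nlinarith
    have h8 : x' * (q * s ^ 2) = x * (q * s ^ 2) + 2 * (δ * s ^ 2) := by rw [hδ]; ring
    linarith
  have key : ∀ w ∈ LW d N, Fw (HS d m r e (fun j => Q (N + j) ∧ thr d m v x s (N + j))) 1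
          (s ^ 4 + (w.map fun i => Real.log (|(m i : ℝ)| / d)).sum) ≤
      D * (if (w.map (fc d m)).sum ≤ x' * z then 1 else 0) + 2 * ε +
        3 * (if 1 / 4 * s ^ 3 < |(w.map (fc d m)).sum| then 1 else 0) := by
    intro w hw
    obtain ⟨he1, he2⟩ := hh w hw
    set u := s ^ 4 + (w.map fun i => Real.log (|(m i : ℝ)| / d)).sum with hu
    by_cases hb : 1 / 4 * s ^ 3 < |(w.map (fc d m)).sum|
    · rw [if_pos hb]
      have h1 := Fw_le3 (HS d m r e (fun j => Q (N + j) ∧ thr d m v x s (N + j))) u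
      have h2 : 0 ≤ D * (if (w.map (fc d m)).sum ≤ x' * z then 1 else 0) := by
        apply mul_nonneg hD0; split_ifs <;> norm_num
      linarith
    · rw [if_neg hb]
      obtain ⟨hu1, hu2⟩ := he2 hb
      by_cases hf : (w.map (fc d m)).sum ≤ x' * z
      · rw [if_pos hf]
        have h1 : Fw (HS d m r e (fun j => Q (N + j) ∧ thr d m v x s (N + j))) 1 u ≤
            Fw (HS d m r e (fun j => Q (N + j))) 1 u :=
          Fw_mono fun n _ _ hn => ⟨hn.1, hn.2.choose, hn.2.choose_spec.1.1, hn.2.choose_spec.2⟩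
        have h2 := abs_le.1 (hu₁ u (by linarith) N)
        linarith [h2.2]
      · rw [if_neg hf]
        have h1 := hc u hu1 hu2 (fun j => Q (N + j) ∧ thr d m v x s (N + j)) (by
          intro k hk
          rw [not_and]
          intro _
          unfold thr
          rw [← hq]
          push_cast
          rw [abs_le] at hk
          rw [not_le] at hf ⊢
          have h2 : rho d m * k ≥ u - δ * s ^ 2 := by linarith [hk.1]
          rw [he1] at h2
          linarith)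
        linarith
  rw [div_le_iff₀ hdN]
  refine (Finset.sum_le_sum key).trans ?_
  rw [Finset.sum_add_distrib, Finset.sum_add_distrib, Finset.sum_const, card_LW, nsmul_eq_mul,
    ← Finset.mul_sum, ← Finset.mul_sum, Finset.sum_boole, Finset.sum_boole]
  push_cast
  apply le_of_eq
  field_simp

/-- the lower bound -/
theorem lower (h : Adm d m r) {σ η : ℝ} (hσ : 0 ≤ σ) (hη0 : 0 ≤ η) (hη1 : η < 1)
    (hsum : ∑ j ∈ range d, (|(m j : ℝ)| / d) ^ σ ≤ (d : ℝ) ^ η) {e : ℤ} (he : 0 < e)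
    {v : ℝ} (hv : 0 < v) {Q : ℕ → Prop} {D : ℝ} (hD0 : 0 ≤ D) (hD : UD d m r e Q D)
    {x x' : ℝ} (hx : x' < x) {ε : ℝ} (hε : 0 < ε) :
    ∀ᶠ s in (atTop : Filter ℝ),
      D * ((((LW d (Nt d m s)).filter fun w => (w.map (fc d m)).sum ≤ x' * √(v * Nt d m s)).card : ℝ) /
        (d : ℝ) ^ (Nt d m s)) - 2 * ε -
        D * ((((LW d (Nt d m s)).filter fun w => 1 / 4 * s ^ 3 < |(w.map (fc d m)).sum|).card : ℝ) /
          (d : ℝ) ^ (Nt d m s)) ≤ (∑ w ∈ LW d (Nt d m s),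
        Fw (HS d m r e (fun j => Q (Nt d m s + j) ∧ thr d m v x s (Nt d m s + j))) 1
          (s ^ 4 + (w.map fun i => Real.log (|(m i : ℝ)| / d)).sum)) / (d : ℝ) ^ (Nt d m s) := by
  classical
  have hρ := rho_pos h
  have hd0 : (0 : ℝ) < d := by exact_mod_cast (by have := h.two_le; omega : 0 < d)
  set q := √(v / rho d m) with hq
  have hq0 : 0 < q := Real.sqrt_pos.2 (by positivity)
  set δ := (x - x') * q / 2 with hδ
  have hxx : 0 < x - x' := by linarith
  have hδ0 : 0 < δ := by rw [hδ]; positivity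
  obtain ⟨u₁, hu₁⟩ := Filter.eventually_atTop.1 (hD ε hε)
  filter_upwards [conc h hσ hη0 hη1 hsum he hε hδ0, heights h, eventually_ge_atTop 1,
    eventually_ge_atTop (2 * u₁), eventually_ge_atTop (2 * (|x'| * (1 + rho d m)) / (x - x'))]
    with s hc hh hs1 hs2 hs3
  have hs0 : 0 < s := by linarith
  obtain ⟨hz1, hz2⟩ := sqN h hv hs1
  obtain ⟨hN1, hN2⟩ := Nt_bds h hs1
  rw [← hq] at hz1 hz2
  set N := Nt d m s with hN
  set z := √(v * (N : ℝ)) with hz
  have hdN : (0 : ℝ) < (d : ℝ) ^ N := by positivity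
  have hss : s ≤ s ^ 3 := by nlinarith [mul_pos hs0 hs0, sq_nonneg (s - 1)]
  -- the comparison of the normalisations
  have hcmp : x' * z + δ * s ^ 2 ≤ x * (q * s ^ 2) := by
    rw [div_le_iff₀ hxx] at hs3
    have h1 : x' * z ≤ x' * (q * s ^ 2) + |x'| * (q * (s + rho d m)) := by
      have h2 : x' * z - x' * (q * s ^ 2) = (-x') * (q * s ^ 2 - z) := by ring
      have h3 : (-x') * (q * s ^ 2 - z) ≤ |x'| * (q * (s + rho d m)) :=
        (mul_le_mul_of_nonneg_right (neg_le_abs _) (by linarith)).trans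
          (mul_le_mul_of_nonneg_left hz2 (abs_nonneg _))
      linarith
    have h4 : |x'| * (q * (s + rho d m)) ≤ δ * s ^ 2 := by
      have h5 : |x'| * (s + rho d m) ≤ |x'| * (1 + rho d m) * s := by
        have : rho d m ≤ rho d m * s := by nlinarith
        nlinarith [abs_nonneg x']
      have h6 : |x'| * (1 + rho d m) * s ≤ (x - x') / 2 * s ^ 2 := by nlinarith
      have h7 := mul_le_mul_of_nonneg_left (h5.trans h6) hq0.le
      rw [hδ]
      nlinarith
    have h8 : x' * (q * s ^ 2) = x * (q * s ^ 2) - 2 * (δ * s ^ 2) := by rw [hδ]; ring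
    linarith
  have key : ∀ w ∈ LW d N, D * (if (w.map (fc d m)).sum ≤ x' * z then 1 else 0) - 2 * ε -
        D * (if 1 / 4 * s ^ 3 < |(w.map (fc d m)).sum| then 1 else 0) ≤
      Fw (HS d m r e (fun j => Q (N + j) ∧ thr d m v x s (N + j))) 1
          (s ^ 4 + (w.map fun i => Real.log (|(m i : ℝ)| / d)).sum) := by
    intro w hw
    obtain ⟨he1, he2⟩ := hh w hw
    set u := s ^ 4 + (w.map fun i => Real.log (|(m i : ℝ)| / d)).sum with hu
    have h0 := Fw_nonneg (HS d m r e (fun j => Q (N + j) ∧ thr d m v x s (N + j))) 1 u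
    by_cases hb : 1 / 4 * s ^ 3 < |(w.map (fc d m)).sum|
    · rw [if_pos hb]
      have h2 : D * (if (w.map (fc d m)).sum ≤ x' * z then 1 else 0) ≤ D * 1 := by
        apply mul_le_mul_of_nonneg_left _ hD0; split_ifs <;> norm_num
      linarith
    · rw [if_neg hb]
      obtain ⟨hu1, hu2⟩ := he2 hb
      by_cases hf : (w.map (fc d m)).sum ≤ x' * z
      · rw [if_pos hf]
        have h1 : Fw (HS d m r e (fun j => Q (N + j))) 1 u ≤
            Fw (HS d m r e (fun j => Q (N + j) ∧ thr d m v x s (N + j))) 1 u +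
            Fw (HS d m r e (fun j => ¬ thr d m v x s (N + j))) 1 u := by
          refine Fw_le_add fun n _ _ hn => ?_
          obtain ⟨hn1, k, hk1, hk2⟩ := hn
          by_cases hk : thr d m v x s (N + k)
          · exact Or.inl ⟨hn1, k, ⟨hk1, hk⟩, hk2⟩
          · exact Or.inr ⟨hn1, k, hk, hk2⟩
        have h2 := (abs_le.1 (hu₁ u (by linarith) N)).1
        have h3 := hc u hu1 hu2 (fun j => ¬ thr d m v x s (N + j)) (by
          intro k hk
          rw [not_not]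
          unfold thr
          rw [← hq]
          push_cast
          rw [abs_le] at hk
          have h2 : rho d m * k ≤ u + δ * s ^ 2 := by linarith [hk.2]
          rw [he1] at h2
          linarith)
        linarith
      · rw [if_neg hf]
        linarith
  rw [le_div_iff₀ hdN]
  refine le_trans ?_ (Finset.sum_le_sum key)
  rw [Finset.sum_sub_distrib, Finset.sum_sub_distrib, Finset.sum_const, card_LW, nsmul_eq_mul,
    ← Finset.mul_sum, ← Finset.mul_sum, Finset.sum_boole, Finset.sum_boole]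
  push_cast
  apply le_of_eq
  field_simp

/-- **the limit of the window densities** -/
theorem window_limit (h : Adm d m r) (hm : ∀ i < d, 0 < m i) {σ η : ℝ} (hσ : 0 ≤ σ) (hη0 : 0 ≤ η)
    (hη1 : η < 1) (hsum : ∑ j ∈ range d, (|(m j : ℝ)| / d) ^ σ ≤ (d : ℝ) ^ η) {e : ℤ} (he : 0 < e)
    {v : ℝ} (hv : 0 < v) (hvar : ∑ j ∈ range d, fc d m j ^ 2 = d * v)
    {Q : ℕ → Prop} {D : ℝ} (hD0 : 0 ≤ D) (hD : UD d m r e Q D) (x : ℝ) :
    Tendsto (fun s : ℝ => Fw (HS d m r e (fun k => Q k ∧ thr d m v x s k)) 1 (s ^ 4)) atTop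
      (𝓝 (D * Phi x)) := by
  classical
  have hd0 : (0 : ℝ) < d := by exact_mod_cast (by have := h.two_le; omega : 0 < d)
  have hρ := rho_pos h
  have hL := lPP h
  -- the exceptional words
  have hbad : Tendsto (fun s : ℝ => (((LW d (Nt d m s)).filter fun w =>
      1 / 4 * s ^ 3 < |(w.map (fc d m)).sum|).card : ℝ) / (d : ℝ) ^ (Nt d m s)) atTop (𝓝 0) := by
    have hc0 : 0 < (1 / 4 : ℝ) ^ 2 * rho d m / (4 * Real.log (PP d m) ^ 2) := by positivity
    have h1 := (exp_small hc0 0).const_mul 2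
    rw [show (2 : ℝ) * 0 = 0 by norm_num] at h1
    refine squeeze_zero' (Eventually.of_forall fun s => by positivity) ?_ h1
    filter_upwards [eventually_ge_atTop 1] with s hs
    have hs0 : 0 < s := by linarith
    have h2 := bad_frac h (s := s) (c := 1 / 4) hs0 (by norm_num) (j := Nt d m s)
      (by linarith [(Nt_bds h hs).1, pow_pos hs0 3])
    rw [div_le_iff₀ (by positivity)]
    refine h2.trans (le_of_eq ?_)
    simp only [mul_zero, pow_zero, one_mul]
    ring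
  have hfr : ∀ x' : ℝ, Tendsto (fun s : ℝ => (((LW d (Nt d m s)).filter fun w =>
      (w.map (fc d m)).sum ≤ x' * √(v * Nt d m s)).card : ℝ) / (d : ℝ) ^ (Nt d m s)) atTop
      (𝓝 (Phi x')) := fun x' =>
    (word_clt h.two_le hv (fc_sum h) hvar x').comp (Nt_tendsto h)
  have hcont := Phi_continuous.continuousAt (x := x)
  rw [tendsto_order]
  constructor
  · intro a ha
    set ε := (D * Phi x - a) / 12 with hε
    have hε0 : 0 < ε := by rw [hε]; linarith
    obtain ⟨x', hx', hx2⟩ : ∃ x' < x, D * Phi x - ε < D * Phi x' := by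
      have h1 : ContinuousAt (fun z => D * Phi z) x := continuousAt_const.mul hcont
      have h2 := h1.eventually (lt_mem_nhds (show D * Phi x - ε < D * Phi x by linarith))
      have h3 : ∀ᶠ z in 𝓝[<] x, D * Phi x - ε < D * Phi z := h2.filter_mono nhdsWithin_le_nhds
      obtain ⟨z, hz1, hz2⟩ := (h3.and self_mem_nhdsWithin).exists
      exact ⟨z, hz2, hz1⟩
    have l1 := (hfr x').const_mul D
    have l2 := hbad.const_mul D
    rw [mul_zero] at l2
    filter_upwards [HS_iter h hm he hε0, lower h hσ hη0 hη1 hsum he hv hD0 hD hx' hε0,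
      l1.eventually (lt_mem_nhds (show D * Phi x' - ε < D * Phi x' by linarith)),
      l2.eventually (gt_mem_nhds (show (0 : ℝ) < ε by linarith))] with s h1 h2 h3 h4
    have h5 := h1 (fun k => Q k ∧ thr d m v x s k)
    rw [abs_le] at h5
    have h6 : a = D * Phi x - 12 * ε := by rw [hε]; ring
    linarith [h5.1]
  · intro b hb
    set ε := (b - D * Phi x) / 12 with hε
    have hε0 : 0 < ε := by rw [hε]; linarith
    obtain ⟨x', hx', hx2⟩ : ∃ x' > x, D * Phi x' < D * Phi x + ε := by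
      have h1 : ContinuousAt (fun z => D * Phi z) x := continuousAt_const.mul hcont
      have h2 := h1.eventually (gt_mem_nhds (show D * Phi x < D * Phi x + ε by linarith))
      have h3 : ∀ᶠ z in 𝓝[>] x, D * Phi z < D * Phi x + ε := h2.filter_mono nhdsWithin_le_nhds
      obtain ⟨z, hz1, hz2⟩ := (h3.and self_mem_nhdsWithin).exists
      exact ⟨z, hz2, hz1⟩
    have l1 := (hfr x').const_mul D
    have l2 := hbad.const_mul 3
    rw [mul_zero] at l2
    filter_upwards [HS_iter h hm he hε0, upper h hσ hη0 hη1 hsum he hv hD0 hD hx' hε0,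
      l1.eventually (gt_mem_nhds (show D * Phi x' < D * Phi x' + ε by linarith)),
      l2.eventually (gt_mem_nhds (show (0 : ℝ) < ε by linarith))] with s h1 h2 h3 h4
    have h5 := h1 (fun k => Q k ∧ thr d m v x s k)
    rw [abs_le] at h5
    have h6 : b = D * Phi x + 12 * ε := by rw [hε]; ring
    linarith [h5.2]

end Pool.Agent.T2h89.CL
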