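import Pool.Agent.T2h89.CL.A7

/-!
From windows to natural densities; the multiplier at the first time of the minimum.
-/

set_option autoImplicit false

namespace Pool.Agent.T2h89.CL
open Pool.Agent.H319R3.GC Pool.Agent.H319R3.DN Finset Filter Topology
open Pool.Agent.H828R3.GP (Mu Mu_succ)
open Pool.Agent.T2h89.LT (rho rho_pos rho_lt lam lam_bds Str AA AA_pos law2 fin_le lPP Mu_eq Mu_ne line log_m)
open Pool.Agent.N681.AI (Lm Lm_ainv exists_Rb far_terms m_ne0 step_lower)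

variable {d : ℕ} {m r : ℕ → ℤ}

/-- the trajectories which are not straight are few -/
theorem nonstr_small (h : Adm d m r) {σ η : ℝ} (hσ : 0 ≤ σ) (hη0 : 0 ≤ η) (hη1 : η < 1)
    (hsum : ∑ j ∈ range d, (|(m j : ℝ)| / d) ^ σ ≤ (d : ℝ) ^ η) (y₀ : ℝ) {ε : ℝ} (hε : 0 < ε) :
    ∃ y : ℝ, 2 ≤ y ∧ y₀ ≤ y ∧ ∀ u : ℝ, 0 ≤ u →
      Fw {n : ℤ | ¬ Str d m r y (fun L => AA d m 1 * √(L * Real.log L)) n} 1 u ≤ ε := by
  obtain ⟨C, hC, hlaw⟩ := law2 h hσ hη0 hη1 hsum 1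
  set y : ℝ := max (max 2 y₀) (Real.exp (2 * C / ε)) with hy
  have hy2 : 2 ≤ y := (le_max_left _ _).trans (le_max_left _ _)
  have hye : y₀ ≤ y := (le_max_right _ _).trans (le_max_left _ _)
  have hyC : 2 * C / ε ≤ Real.log y := by
    rw [Real.le_log_iff_exp_le (by linarith)]
    exact le_max_right _ _
  have hly : 0 < Real.log y := Real.log_pos (by linarith)
  refine ⟨y, hy2, hye, fun u hu => ?_⟩
  have heu := Real.exp_pos u
  have hsub : {x : ℤ | x ∈ {n : ℤ | ¬ Str d m r y (fun L => AA d m 1 * √(L * Real.log L)) n} ∧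
      Real.exp u ≤ ((1 * x : ℤ) : ℝ) ∧
      ((1 * x : ℤ) : ℝ) < 2 * Real.exp u ∧ ((1 : ℕ) : ℤ) ∣ x - 0} ⊆
      {x : ℤ | |(x : ℝ)| ≤ 2 * Real.exp u ∧
        ¬ Str d m r y (fun L => AA d m 1 * √(L * Real.log L)) x} := by
    rintro n ⟨hn, hn1, hn2, -⟩
    rw [one_mul] at hn1 hn2
    have hn0 : (0 : ℝ) < n := by linarith
    exact ⟨by rw [abs_of_pos hn0]; exact hn2.le, hn⟩
  have hfin : {x : ℤ | |(x : ℝ)| ≤ 2 * Real.exp u ∧
        ¬ Str d m r y (fun L => AA d m 1 * √(L * Real.log L)) x}.Finite :=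
    fin_le (2 * Real.exp u) _ fun x hx => hx.1
  have h2 := Set.ncard_le_ncard hsub hfin
  have h3 := hlaw (2 * Real.exp u) y (by have := Real.add_one_le_exp u; linarith) hy2
  unfold Fw nw
  rw [div_le_iff₀ heu]
  have h4 : ({x : ℤ | x ∈ {n : ℤ | ¬ Str d m r y (fun L => AA d m 1 * √(L * Real.log L)) n} ∧
      Real.exp u ≤ ((1 * x : ℤ) : ℝ) ∧
      ((1 * x : ℤ) : ℝ) < 2 * Real.exp u ∧ ((1 : ℕ) : ℤ) ∣ x - 0}.ncard : ℝ) ≤
      ({x : ℤ | |(x : ℝ)| ≤ 2 * Real.exp u ∧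
        ¬ Str d m r y (fun L => AA d m 1 * √(L * Real.log L)) x}.ncard : ℝ) := by
    exact_mod_cast h2
  refine h4.trans (h3.trans ?_)
  rw [pow_one, div_le_iff₀ hly]
  rw [div_le_iff₀ hε] at hyC
  nlinarith

theorem log_Mu (h : Adm d m r) (k : ℕ) : ∀ x : ℤ,
    0 ≤ Real.log |(Mu d m r k x : ℝ)| ∧ Real.log |(Mu d m r k x : ℝ)| ≤ k * Real.log (PP d m) := by
  induction k with
  | zero => intro x; simp [Mu_eq, wd, Mw]
  | succ k ih =>
    intro x
    have hx := (Pool.Agent.W39.toNat_mod h.two_le x).2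
    obtain ⟨h1, h2⟩ := log_m h hx
    obtain ⟨h3, h4⟩ := ih (Tm d m r x)
    have hm0 : (m (x % d).toNat : ℝ) ≠ 0 := by exact_mod_cast m_ne0 h hx
    have e1 : (Mu d m r (k + 1) x : ℝ) = (m (x % d).toNat : ℝ) * (Mu d m r k (Tm d m r x) : ℝ) := by
      rw [Mu_eq, Mu_eq]
      show ((Mw m ((x % d).toNat :: wd d m r k (Tm d m r x)) : ℤ) : ℝ) = _
      rw [Mw_cons]
      push_cast
      ring
    rw [e1, abs_mul, Real.log_mul (abs_pos.2 hm0).ne' (abs_pos.2 (Mu_ne h k _)).ne']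
    push_cast
    constructor <;> linarith

theorem Mu_add (h : Adm d m r) (a b : ℕ) (x : ℤ) :
    Real.log |(Mu d m r (a + b) x : ℝ)| = Real.log |(Mu d m r a x : ℝ)| +
      Real.log |(Mu d m r b ((Tm d m r)^[a] x) : ℝ)| := by
  have e1 : (Mu d m r (a + b) x : ℝ) = (Mu d m r a x : ℝ) * (Mu d m r b ((Tm d m r)^[a] x) : ℝ) := by
    rw [Mu_eq, Mu_eq, Mu_eq, Pool.Agent.W39.wd_add, Mw_append]
    push_cast
    ring
  rw [e1, abs_mul, Real.log_mul (abs_pos.2 (Mu_ne h a x)).ne' (abs_pos.2 (Mu_ne h b _)).ne']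

/-- the multiplier at the first time of the minimum on straight trajectories -/
theorem mult_rel (h : Adm d m r) {R : ℝ} (hR : ∀ i < d, |(r i : ℝ)| ≤ R) (hR0 : 0 ≤ R)
    {e : ℤ} (he : 0 < e) {y : ℝ} (hy1 : 1 ≤ y) (hey : (e : ℝ) ≤ y) {A : ℝ} (hA : 0 ≤ A) :
    ∃ C : ℝ, 0 ≤ C ∧ ∀ (ψ : ℝ → ℝ), (∀ L, 0 ≤ L → ψ L ≤ A * L) → ∀ (n : ℤ) (k : ℕ) (Y : ℝ),
      n ∈ Lm d m r e → Str d m r y ψ n → (Tm d m r)^[k] n = e → (∀ j < k, (Tm d m r)^[j] n ≠ e) →
      y ≤ Y → 4 * k * R ≤ Y → n ≠ 0 →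
      |(Real.log |(Mu d m r k n : ℝ)| - k * Real.log d + Real.log |(n : ℝ)|)| ≤ C * (1 + Real.log Y) := by
  obtain ⟨Kk, hKk⟩ := hit_bounded d m r e y
  have hρ := rho_pos h
  have hL := lPP h
  have heR : (0 : ℝ) < e := by exact_mod_cast he
  have hd1 : (1 : ℝ) ≤ d := by exact_mod_cast (by have := h.two_le; omega : 1 ≤ d)
  have hlogd : 0 ≤ Real.log d := Real.log_nonneg hd1
  set LP := Real.log (PP d m) with hLP
  refine ⟨2 + (LP + Real.log d) * ((A + 1) / rho d m + 1 + Kk), by positivity, ?_⟩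
  intro ψ hψ n k Y hn hS hk hk' hyY hkR hn0
  classical
  obtain ⟨hS1, hS2⟩ := hS
  have hY1 : 1 ≤ Y := hy1.trans hyY
  have hlY : 0 ≤ Real.log Y := Real.log_nonneg hY1
  have hex : ∃ j, |(((Tm d m r)^[j] n : ℤ) : ℝ)| ≤ Y := ⟨k, by rw [hk, abs_of_pos heR]; linarith⟩
  obtain ⟨j₀, hj₀, hj₀m⟩ : ∃ j₀ : ℕ, |(((Tm d m r)^[j₀] n : ℤ) : ℝ)| ≤ Y ∧
      ∀ l < j₀, Y < |(((Tm d m r)^[l] n : ℤ) : ℝ)| :=
    ⟨Nat.find hex, Nat.find_spec hex, fun l hl => not_le.1 (Nat.find_min hex hl)⟩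
  have hjk : j₀ ≤ k := by
    by_contra hc
    have := hj₀m k (by omega)
    rw [hk, abs_of_pos heR] at this
    linarith
  have hjkR : (j₀ : ℝ) ≤ k := by exact_mod_cast hjk
  obtain ⟨hz0, hline⟩ := line h hR hR0 (by linarith : 0 < Y) (n := j₀) hn0
    (fun j hj => (hj₀m j hj).le) (by nlinarith)
  set z : ℤ := (Tm d m r)^[j₀] n with hz
  have hz1 : (1 : ℝ) ≤ |(z : ℝ)| := by
    have : (1 : ℤ) ≤ |z| := Int.one_le_abs hz0
    exact_mod_cast this
  have hlz0 : 0 ≤ Real.log |(z : ℝ)| := Real.log_nonneg hz1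
  have hlz : Real.log |(z : ℝ)| ≤ Real.log Y := Real.log_le_log (by linarith) hj₀
  have hzL : z ∈ Lm d m r e := by
    refine ⟨fun j => ?_, k - j₀, ?_⟩
    · rw [hz, ← Function.iterate_add_apply]; exact hn.1 _
    · rw [hz, ← Function.iterate_add_apply, Nat.sub_add_cancel hjk]; exact hk
  -- the remaining time
  have hrem : (k : ℝ) - j₀ ≤ (A + 1) / rho d m * Real.log Y + 1 + Kk := by
    have hAρ : 0 ≤ (A + 1) / rho d m * Real.log Y := by positivity
    by_cases hzy : |(z : ℝ)| ≤ y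
    · obtain ⟨k₂, hk₂, hk₂e⟩ := hKk _ hzy hzL
      have hkk : k ≤ j₀ + Kk := by
        by_contra hc
        refine hk' (k₂ + j₀) (by omega) ?_
        rw [Function.iterate_add_apply]
        exact hk₂e
      have : (k : ℝ) ≤ j₀ + Kk := by exact_mod_cast hkk
      linarith
    · rw [not_le] at hzy
      obtain ⟨k₁, hk₁s, hk₁m⟩ : ∃ k₁ : ℕ, |(((Tm d m r)^[k₁] n : ℤ) : ℝ)| ≤ y ∧
          ∀ l < k₁, y < |(((Tm d m r)^[l] n : ℤ) : ℝ)| :=
        ⟨Nat.find hS1, Nat.find_spec hS1, fun l hl => not_le.1 (Nat.find_min hS1 hl)⟩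
      have hk₁j : j₀ < k₁ := by
        by_contra hc
        rcases Nat.lt_or_ge k₁ j₀ with h1 | h1
        · have := hj₀m k₁ h1
          linarith
        · have : k₁ = j₀ := by omega
          rw [this, ← hz] at hk₁s
          linarith
      have hkk : k₁ ≤ k := by
        by_contra hc
        have h1 := hk₁m k (by omega)
        rw [hk, abs_of_pos heR] at h1
        linarith
      have hL1 : (Tm d m r)^[k₁] n ∈ Lm d m r e := by
        refine ⟨fun j => ?_, k - k₁, ?_⟩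
        · rw [← Function.iterate_add_apply]; exact hn.1 _
        · rw [← Function.iterate_add_apply, Nat.sub_add_cancel hkk]; exact hk
      obtain ⟨k₂, hk₂, hk₂e⟩ := hKk _ hk₁s hL1
      have hkk2 : k ≤ k₁ + Kk := by
        by_contra hc
        refine hk' (k₂ + k₁) (by omega) ?_
        rw [Function.iterate_add_apply]
        exact hk₂e
      obtain ⟨k₀, rfl⟩ : ∃ k₀, k₁ = k₀ + 1 := ⟨k₁ - 1, by omega⟩
      have h3 := hS2 j₀ k₀ (by omega) (fun l hl => hk₁m l (by omega))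
      rw [← hz] at h3
      have h4 := hk₁m k₀ (by omega)
      have h5 : 0 ≤ Real.log |(((Tm d m r)^[k₀] n : ℤ) : ℝ)| := Real.log_nonneg (by linarith)
      have h6 := hψ _ hlz0
      have h7 : A * Real.log |(z : ℝ)| ≤ A * Real.log Y := mul_le_mul_of_nonneg_left hlz hA
      have h8 : rho d m * ((k₀ : ℝ) - j₀) ≤ (A + 1) * Real.log Y := by
        have := (abs_le.1 h3).2
        linarith
      have h9 : (k₀ : ℝ) - j₀ ≤ (A + 1) / rho d m * Real.log Y := by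
        rw [div_mul_eq_mul_div, le_div_iff₀ hρ]
        linarith
      have h10 : (k : ℝ) ≤ k₀ + 1 + Kk := by exact_mod_cast hkk2
      linarith
  obtain ⟨l, rfl⟩ : ∃ l, k = j₀ + l := ⟨k - j₀, by omega⟩
  have hadd := Mu_add h j₀ l n
  rw [← hz] at hadd
  obtain ⟨g1, g2⟩ := log_Mu h l z
  push_cast at hrem hkR ⊢
  have hl : (l : ℝ) ≤ (A + 1) / rho d m * Real.log Y + 1 + Kk := by linarith
  have hl0 : (0 : ℝ) ≤ l := Nat.cast_nonneg l
  have hl2 : (l : ℝ) ≤ ((A + 1) / rho d m + 1 + Kk) * (1 + Real.log Y) := by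
    have h1 : 0 ≤ (A + 1) / rho d m := by positivity
    have h2 : (0 : ℝ) ≤ Kk := Nat.cast_nonneg _
    nlinarith
  have hlog2 : Real.log 2 ≤ 1 := by
    have := Real.log_two_lt_d9; linarith
  have hprod : (LP + Real.log d) * l ≤
      (LP + Real.log d) * (((A + 1) / rho d m + 1 + Kk) * (1 + Real.log Y)) :=
    mul_le_mul_of_nonneg_left hl2 (by positivity)
  rw [hadd]
  rw [abs_le] at hline ⊢
  have q1 : 0 ≤ l * Real.log d := by positivity
  have q2 : 0 ≤ LP * l := by positivity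
  constructor
  · nlinarith [hline.1]
  · nlinarith [hline.2]

/-- the squeeze -/
theorem squeeze {S : Set ℤ} {H : ℝ → ℝ → ℝ} {D : ℝ}
    (hH : ∀ x : ℝ, Tendsto (fun s => H x s) atTop (𝓝 (D * Phi x))) (x : ℝ)
    (hS1 : ∀ x' : ℝ, x < x' → ∀ ε : ℝ, 0 < ε → ∀ᶠ s in (atTop : Filter ℝ), Fw S 1 (s ^ 4) ≤ H x' s + ε)
    (hS2 : ∀ x' : ℝ, x' < x → ∀ ε : ℝ, 0 < ε → ∀ᶠ s in (atTop : Filter ℝ), H x' s ≤ Fw S 1 (s ^ 4) + ε) :
    Tendsto (Fw S 1) atTop (𝓝 (D * Phi x)) := by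
  have hcont := Phi_continuous.continuousAt (x := x)
  have key : Tendsto (fun s : ℝ => Fw S 1 (s ^ 4)) atTop (𝓝 (D * Phi x)) := by
    rw [tendsto_order]
    constructor
    · intro a ha
      set ε := (D * Phi x - a) / 4 with hε
      have hε0 : 0 < ε := by rw [hε]; linarith
      obtain ⟨x', hx', hx2⟩ : ∃ x' < x, D * Phi x - ε < D * Phi x' := by
        have h1 : ContinuousAt (fun z => D * Phi z) x := continuousAt_const.mul hcont
        have h2 := h1.eventually (lt_mem_nhds (show D * Phi x - ε < D * Phi x by linarith))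
        have h3 : ∀ᶠ z in 𝓝[<] x, D * Phi x - ε < D * Phi z := h2.filter_mono nhdsWithin_le_nhds
        obtain ⟨z, hz1, hz2⟩ := (h3.and self_mem_nhdsWithin).exists
        exact ⟨z, hz2, hz1⟩
      filter_upwards [hS2 x' hx' ε hε0,
        (hH x').eventually (lt_mem_nhds (show D * Phi x' - ε < D * Phi x' by linarith))] with s h1 h2
      have h6 : a = D * Phi x - 4 * ε := by rw [hε]; ring
      linarith
    · intro b hb
      set ε := (b - D * Phi x) / 4 with hε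
      have hε0 : 0 < ε := by rw [hε]; linarith
      obtain ⟨x', hx', hx2⟩ : ∃ x' > x, D * Phi x' < D * Phi x + ε := by
        have h1 : ContinuousAt (fun z => D * Phi z) x := continuousAt_const.mul hcont
        have h2 := h1.eventually (gt_mem_nhds (show D * Phi x < D * Phi x + ε by linarith))
        have h3 : ∀ᶠ z in 𝓝[>] x, D * Phi z < D * Phi x + ε := h2.filter_mono nhdsWithin_le_nhds
        obtain ⟨z, hz1, hz2⟩ := (h3.and self_mem_nhdsWithin).exists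
        exact ⟨z, hz2, hz1⟩
      filter_upwards [hS1 x' hx' ε hε0,
        (hH x').eventually (gt_mem_nhds (show D * Phi x' < D * Phi x' + ε by linarith))] with s h1 h2
      have h6 : b = D * Phi x + 4 * ε := by rw [hε]; ring
      linarith
  have hsq : Tendsto (fun t : ℝ => √(√t)) atTop atTop :=
    Real.tendsto_sqrt_atTop.comp Real.tendsto_sqrt_atTop
  refine (key.comp hsq).congr' ?_
  filter_upwards [eventually_ge_atTop 0] with t ht
  simp only [Function.comp_apply]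
  congr 1
  rw [show (√√t) ^ 4 = ((√√t) ^ 2) ^ 2 by ring, Real.sq_sqrt (Real.sqrt_nonneg _), Real.sq_sqrt ht]

/-- bounds on a window -/
theorem win_bds {s : ℝ} (hs : 1 ≤ s) {n : ℤ} (h1 : Real.exp (s ^ 4) ≤ n) (h2 : (n : ℝ) < 2 * Real.exp (s ^ 4)) :
    (0 : ℝ) < n ∧ s ^ 4 ≤ Real.log n ∧ Real.log n ≤ s ^ 4 + 1 ∧ s ^ 2 ≤ √(Real.log n) ∧
      √(Real.log n) ≤ s ^ 2 + 1 := by
  have he := Real.exp_pos (s ^ 4)
  have hn0 : (0 : ℝ) < n := by linarith
  have hs0 : 0 < s := by linarith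
  have hL1 : s ^ 4 ≤ Real.log n := by
    rw [Real.le_log_iff_exp_le hn0]; exact h1
  have hL2 : Real.log n ≤ s ^ 4 + 1 := by
    have h3 : Real.log n ≤ s ^ 4 + Real.log 2 := by
      rw [← Real.log_exp (s ^ 4), ← Real.log_mul he.ne' (by norm_num)]
      apply Real.log_le_log hn0
      linarith
    have := Real.log_two_lt_d9
    linarith
  refine ⟨hn0, hL1, hL2, ?_, ?_⟩
  · apply Real.le_sqrt_of_sq_le
    have : (s ^ 2) ^ 2 = s ^ 4 := by ring
    rw [this]; exact hL1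
  · apply Real.sqrt_le_iff.2
    constructor
    · positivity
    · have : (s ^ 2 + 1) ^ 2 = s ^ 4 + 2 * s ^ 2 + 1 := by ring
      rw [this]
      nlinarith [pow_pos hs0 2]

end Pool.Agent.T2h89.CL
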