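import Pool.Agent.T2h89.CL.A8

/-!
The central limit theorems for the first time of the minimum and for the multiplier at this time, in windows.
-/

set_option autoImplicit false

namespace Pool.Agent.T2h89.CL
open Pool.Agent.H319R3.GC Pool.Agent.H319R3.DN Finset Filter Topology
open Pool.Agent.H828R3.GP (Mu Mu_succ)
open Pool.Agent.T2h89.LT (rho rho_pos rho_lt lam lam_bds Str AA AA_pos law2 fin_le lPP Mu_eq Mu_ne line log_m)
open Pool.Agent.N681.AI (Lm Lm_ainv exists_Rb far_terms m_ne0 step_lower)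

variable {d : ℕ} {m r : ℕ → ℤ}

/-- the first time of the minimum `e` is in `Q` and at most `log n / ρ + x √(v / ρ³) √(log n)` -/
def CT (d : ℕ) (m r : ℕ → ℤ) (e : ℤ) (Q : ℕ → Prop) (v x : ℝ) : Set ℤ :=
  {n : ℤ | n ∈ Lm d m r e ∧ ∃ k : ℕ,
    (Q k ∧ rho d m * k ≤ Real.log n + x * (√(v / rho d m) * √(Real.log n))) ∧
    (Tm d m r)^[k] n = e ∧ ∀ j < k, (Tm d m r)^[j] n ≠ e}

/-- the first time of the minimum `e` is in `Q` and the logarithm of the multiplier up to this time is at most
`(λ / ρ) log n + x √(v / ρ³) log d √(log n)` -/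
def MS (d : ℕ) (m r : ℕ → ℤ) (e : ℤ) (Q : ℕ → Prop) (v x : ℝ) : Set ℤ :=
  {n : ℤ | n ∈ Lm d m r e ∧ ∃ k : ℕ,
    (Q k ∧ rho d m * Real.log |(Mu d m r k n : ℝ)| ≤
      lam d m * Real.log n + x * (√(v / rho d m) * Real.log d * √(Real.log n))) ∧
    (Tm d m r)^[k] n = e ∧ ∀ j < k, (Tm d m r)^[j] n ≠ e}

theorem CT_limit (h : Adm d m r) (hm : ∀ i < d, 0 < m i) {σ η : ℝ} (hσ : 0 ≤ σ) (hη0 : 0 ≤ η)
    (hη1 : η < 1) (hsum : ∑ j ∈ range d, (|(m j : ℝ)| / d) ^ σ ≤ (d : ℝ) ^ η) {e : ℤ} (he : 0 < e)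
    {v : ℝ} (hv : 0 < v) (hvar : ∑ j ∈ range d, fc d m j ^ 2 = d * v)
    {Q : ℕ → Prop} {D : ℝ} (hD0 : 0 ≤ D) (hD : UD d m r e Q D) (x : ℝ) :
    Tendsto (Fw (CT d m r e Q v x) 1) atTop (𝓝 (D * Phi x)) := by
  have hρ := rho_pos h
  set q := √(v / rho d m) with hq
  have hq0 : 0 < q := Real.sqrt_pos.2 (by positivity)
  refine squeeze (H := fun x s => Fw (HS d m r e (fun k => Q k ∧ thr d m v x s k)) 1 (s ^ 4))
    (fun x => window_limit h hm hσ hη0 hη1 hsum he hv hvar hD0 hD x) x ?_ ?_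
  · intro x' hx ε hε
    have hxx : 0 < x' - x := by linarith
    filter_upwards [eventually_ge_atTop 1, eventually_ge_atTop ((1 + |x| * q) / ((x' - x) * q))]
      with s hs hs2
    have hs0 : 0 < s := by linarith
    have hss : s ≤ s ^ 2 := by nlinarith
    rw [div_le_iff₀ (by positivity)] at hs2
    have hs3 : 1 + |x| * q ≤ (x' - x) * q * s ^ 2 := by
      have h1 : s * ((x' - x) * q) ≤ s ^ 2 * ((x' - x) * q) :=
        mul_le_mul_of_nonneg_right hss (by positivity)
      linarith
    have : Fw (CT d m r e Q v x) 1 (s ^ 4) ≤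
        Fw (HS d m r e (fun k => Q k ∧ thr d m v x' s k)) 1 (s ^ 4) := by
      refine Fw_mono fun n hn1 hn2 hn => ?_
      obtain ⟨hn0, hL1, hL2, hL3, hL4⟩ := win_bds hs hn1 hn2
      obtain ⟨hnL, k, ⟨hQk, hk⟩, hk2⟩ := hn
      refine ⟨hnL, k, ⟨hQk, ?_⟩, hk2⟩
      unfold thr
      rw [← hq] at hk ⊢
      have h1 : x * (q * √(Real.log n)) - x * (q * s ^ 2) ≤ |x| * q := by
        have h2 : x * (q * √(Real.log n)) - x * (q * s ^ 2) = x * q * (√(Real.log n) - s ^ 2) := by ring
        rw [h2]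
        have h3 : x * q * (√(Real.log n) - s ^ 2) ≤ |x| * q * (√(Real.log n) - s ^ 2) := by
          apply mul_le_mul_of_nonneg_right _ (by linarith)
          exact mul_le_mul_of_nonneg_right (le_abs_self x) hq0.le
        have h4 : |x| * q * (√(Real.log n) - s ^ 2) ≤ |x| * q * 1 :=
          mul_le_mul_of_nonneg_left (by linarith) (by positivity)
        linarith
      nlinarith
    linarith
  · intro x' hx ε hε
    have hxx : 0 < x - x' := by linarith
    filter_upwards [eventually_ge_atTop 1, eventually_ge_atTop ((1 + |x| * q) / ((x - x') * q))]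
      with s hs hs2
    have hs0 : 0 < s := by linarith
    have hss : s ≤ s ^ 2 := by nlinarith
    rw [div_le_iff₀ (by positivity)] at hs2
    have hs3 : 1 + |x| * q ≤ (x - x') * q * s ^ 2 := by
      have h1 : s * ((x - x') * q) ≤ s ^ 2 * ((x - x') * q) :=
        mul_le_mul_of_nonneg_right hss (by positivity)
      linarith
    have : Fw (HS d m r e (fun k => Q k ∧ thr d m v x' s k)) 1 (s ^ 4) ≤
        Fw (CT d m r e Q v x) 1 (s ^ 4) := by
      refine Fw_mono fun n hn1 hn2 hn => ?_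
      obtain ⟨hn0, hL1, hL2, hL3, hL4⟩ := win_bds hs hn1 hn2
      obtain ⟨hnL, k, ⟨hQk, hk⟩, hk2⟩ := hn
      refine ⟨hnL, k, ⟨hQk, ?_⟩, hk2⟩
      unfold thr at hk
      rw [← hq] at hk ⊢
      have h1 : x * (q * s ^ 2) - x * (q * √(Real.log n)) ≤ |x| * q := by
        have h2 : x * (q * s ^ 2) - x * (q * √(Real.log n)) = (-x) * q * (√(Real.log n) - s ^ 2) := by
          ring
        rw [h2]
        have h3 : (-x) * q * (√(Real.log n) - s ^ 2) ≤ |x| * q * (√(Real.log n) - s ^ 2) := by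
          apply mul_le_mul_of_nonneg_right _ (by linarith)
          exact mul_le_mul_of_nonneg_right (neg_le_abs x) hq0.le
        have h4 : |x| * q * (√(Real.log n) - s ^ 2) ≤ |x| * q * 1 :=
          mul_le_mul_of_nonneg_left (by linarith) (by positivity)
        linarith
      nlinarith
    linarith

theorem ev_err {C B δ : ℝ} (hC : 0 ≤ C) (hB : 0 < B) (hδ : 0 < δ) :
    ∀ᶠ s in (atTop : Filter ℝ), C * (1 + Real.log (B * s ^ 4)) ≤ δ * s ^ 2 := by
  filter_upwards [ev_log (c := δ / (8 * (C + 1))) (by positivity), eventually_ge_atTop 1,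
    eventually_ge_atTop (2 * (C * (1 + |Real.log B|)) / δ)] with s h1 h2 h3
  have hs0 : 0 < s := by linarith
  rw [div_le_iff₀ hδ] at h3
  rw [Real.log_mul hB.ne' (by positivity), Real.log_pow]
  push_cast
  have h4 : C * (4 * Real.log s) ≤ δ / 2 * s := by
    have h5 : C * (4 * Real.log s) ≤ C * (4 * (δ / (8 * (C + 1)) * s)) :=
      mul_le_mul_of_nonneg_left (by linarith) hC
    refine h5.trans ?_
    have h6 : C * (4 * (δ / (8 * (C + 1)) * s)) = (C / (C + 1)) * (δ / 2 * s) := by
      field_simp; ring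
    rw [h6]
    have h7 : C / (C + 1) ≤ 1 := by
      rw [div_le_one (by linarith)]; linarith
    have h8 : 0 ≤ δ / 2 * s := by positivity
    nlinarith
  have h5 : C * (1 + Real.log B) ≤ C * (1 + |Real.log B|) :=
    mul_le_mul_of_nonneg_left (by linarith [le_abs_self (Real.log B)]) hC
  have h6 : δ * s ≤ δ * s ^ 2 := mul_le_mul_of_nonneg_left (by nlinarith) hδ.le
  have h7 : C * (1 + (Real.log B + 4 * Real.log s)) = C * (1 + Real.log B) + C * (4 * Real.log s) := by
    ring
  rw [h7]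
  linarith

/-- the relation of the first time and of the multiplier in windows -/
theorem win_rel (h : Adm d m r) {e : ℤ} (he : 0 < e) {y : ℝ} (hy : 2 ≤ y) (hey : (e : ℝ) ≤ y)
    {δ : ℝ} (hδ : 0 < δ) : ∀ᶠ s in (atTop : Filter ℝ), ∀ n : ℤ, Real.exp (s ^ 4) ≤ n →
      (n : ℝ) < 2 * Real.exp (s ^ 4) → n ∈ Lm d m r e →
      Str d m r y (fun L => AA d m 1 * √(L * Real.log L)) n → ∀ k : ℕ, (Tm d m r)^[k] n = e →
      (∀ j < k, (Tm d m r)^[j] n ≠ e) →
      |(Real.log |(Mu d m r k n : ℝ)| - k * Real.log d + Real.log n)| ≤ δ * s ^ 2 := by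
  obtain ⟨R, hR0, hR⟩ := exists_Rb d r
  have hρ := rho_pos h
  have hA := AA_pos h 1
  set A := AA d m 1 with hAdef
  obtain ⟨C₁, hC₁, hft⟩ := first_time h he (by linarith : 1 ≤ y) hey
  obtain ⟨C₂, hC₂, hmr⟩ := mult_rel h hR hR0 he (by linarith : 1 ≤ y) hey hA.le
  have hψ : ∀ L : ℝ, 0 ≤ L → A * √(L * Real.log L) ≤ A * L := by
    intro L hL
    apply mul_le_mul_of_nonneg_left _ hA.le
    apply Real.sqrt_le_iff.2
    refine ⟨hL, ?_⟩
    have : Real.log L ≤ L := by
      rcases eq_or_lt_of_le hL with h0 | h0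
      · rw [← h0]; simp
      · have := Real.log_le_sub_one_of_pos h0; linarith
    nlinarith
  set B : ℝ := y + 4 * ((A * 2 + 2 + C₁) / rho d m) * R with hB
  have hB0 : 0 < B := by
    have : 0 ≤ 4 * ((A * 2 + 2 + C₁) / rho d m) * R := by positivity
    linarith
  filter_upwards [ev_err (C := C₂) (B := B) hC₂ hB0 hδ, eventually_ge_atTop 1, eventually_ge_atTop y]
    with s hs1 hs2 hs3 n hn1 hn2 hnL hS k hk hk'
  obtain ⟨hn0, hL1, hL2, -, -⟩ := win_bds hs2 hn1 hn2
  have hs0 : 0 < s := by linarith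
  have hs4 : 1 ≤ s ^ 4 := one_le_pow₀ hs2
  have hss : s ≤ s ^ 4 := by
    calc s = s ^ 1 := (pow_one s).symm
      _ ≤ s ^ 4 := pow_le_pow_right₀ hs2 (by norm_num)
  have hny : y < |(n : ℝ)| := by
    rw [abs_of_pos hn0]
    have := Real.add_one_le_exp (s ^ 4)
    linarith
  have hnne : n ≠ 0 := by
    intro h0
    rw [h0] at hn0
    simp at hn0
  have h1 := hft _ n k hnL hS hny hk hk'
  beta_reduce at h1
  rw [abs_of_pos hn0] at h1
  have hL0 : 0 ≤ Real.log (n : ℝ) := by linarith
  have h2 := hψ _ hL0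
  have hkB : (k : ℝ) ≤ (A * 2 + 2 + C₁) / rho d m * s ^ 4 := by
    rw [div_mul_eq_mul_div, le_div_iff₀ hρ]
    have h3 := (abs_le.1 h1).2
    have h4 : Real.log (n : ℝ) ≤ 2 * s ^ 4 := by linarith
    have h5 : A * Real.log (n : ℝ) ≤ A * (2 * s ^ 4) := mul_le_mul_of_nonneg_left h4 hA.le
    have h6 : C₁ ≤ C₁ * s ^ 4 := by nlinarith
    nlinarith
  have h7 := hmr _ hψ n k (B * s ^ 4) hnL hS hk hk' (by nlinarith) (by
    have h8 : 4 * (k : ℝ) * R ≤ 4 * ((A * 2 + 2 + C₁) / rho d m * s ^ 4) * R := by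
      apply mul_le_mul_of_nonneg_right _ hR0
      linarith
    have h9 : 0 ≤ y * s ^ 4 := by positivity
    rw [hB]
    nlinarith) hnne
  rw [abs_of_pos hn0] at h7
  exact h7.trans hs1

theorem MS_limit (h : Adm d m r) (hm : ∀ i < d, 0 < m i) {σ η : ℝ} (hσ : 0 ≤ σ) (hη0 : 0 ≤ η)
    (hη1 : η < 1) (hsum : ∑ j ∈ range d, (|(m j : ℝ)| / d) ^ σ ≤ (d : ℝ) ^ η) {e : ℤ} (he : 0 < e)
    {v : ℝ} (hv : 0 < v) (hvar : ∑ j ∈ range d, fc d m j ^ 2 = d * v)
    {Q : ℕ → Prop} {D : ℝ} (hD0 : 0 ≤ D) (hD : UD d m r e Q D) (x : ℝ) :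
    Tendsto (Fw (MS d m r e Q v x) 1) atTop (𝓝 (D * Phi x)) := by
  have hρ := rho_pos h
  have hlogd : 0 < Real.log d :=
    Real.log_pos (by exact_mod_cast (by have := h.two_le; omega : 1 < d))
  have hlam : rho d m + lam d m = Real.log d := by unfold rho; ring
  have hl0 := (lam_bds h).1
  set q := √(v / rho d m) with hq
  have hq0 : 0 < q := Real.sqrt_pos.2 (by positivity)
  refine squeeze (H := fun x s => Fw (HS d m r e (fun k => Q k ∧ thr d m v x s k)) 1 (s ^ 4))
    (fun x => window_limit h hm hσ hη0 hη1 hsum he hv hvar hD0 hD x) x ?_ ?_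
  · intro x' hx ε hε
    have hxx : 0 < x' - x := by linarith
    set δ := (x' - x) * q * Real.log d / (2 * rho d m) with hδ
    have hδ0 : 0 < δ := by rw [hδ]; positivity
    obtain ⟨y, hy2, hye, hns⟩ := nonstr_small h hσ hη0 hη1 hsum e hε
    filter_upwards [eventually_ge_atTop 1, eventually_ge_atTop (2 * (1 + |x| * q) / ((x' - x) * q)),
      win_rel h he hy2 hye hδ0] with s hs hs2 hrel
    have hs0 : 0 < s := by linarith
    have hss : s ≤ s ^ 2 := by nlinarith
    rw [div_le_iff₀ (by positivity)] at hs2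
    have hs3 : 1 + |x| * q ≤ (x' - x) * q / 2 * s ^ 2 := by
      have h1 : s * ((x' - x) * q) ≤ s ^ 2 * ((x' - x) * q) :=
        mul_le_mul_of_nonneg_right hss (by positivity)
      linarith
    have : Fw (MS d m r e Q v x) 1 (s ^ 4) ≤
        Fw (HS d m r e (fun k => Q k ∧ thr d m v x' s k)) 1 (s ^ 4) +
        Fw {n : ℤ | ¬ Str d m r y (fun L => AA d m 1 * √(L * Real.log L)) n} 1 (s ^ 4) := by
      refine Fw_le_add fun n hn1 hn2 hn => ?_
      by_cases hS : Str d m r y (fun L => AA d m 1 * √(L * Real.log L)) n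
      swap
      · exact Or.inr hS
      left
      obtain ⟨hn0, hL1, hL2, hL3, hL4⟩ := win_bds hs hn1 hn2
      obtain ⟨hnL, k, ⟨hQk, hk⟩, hk2, hk3⟩ := hn
      refine ⟨hnL, k, ⟨hQk, ?_⟩, hk2, hk3⟩
      have hr := (abs_le.1 (hrel n hn1 hn2 hnL hS k hk2 hk3)).1
      unfold thr
      rw [← hq] at hk ⊢
      have h1 : x * (q * √(Real.log n)) - x * (q * s ^ 2) ≤ |x| * q := by
        have h2 : x * (q * √(Real.log n)) - x * (q * s ^ 2) = x * q * (√(Real.log n) - s ^ 2) := by ring
        rw [h2]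
        have h3 : x * q * (√(Real.log n) - s ^ 2) ≤ |x| * q * (√(Real.log n) - s ^ 2) := by
          apply mul_le_mul_of_nonneg_right _ (by linarith)
          exact mul_le_mul_of_nonneg_right (le_abs_self x) hq0.le
        have h4 : |x| * q * (√(Real.log n) - s ^ 2) ≤ |x| * q * 1 :=
          mul_le_mul_of_nonneg_left (by linarith) (by positivity)
        linarith
      -- multiply by `log d`
      have h2 : rho d m * (δ * s ^ 2) = Real.log d * ((x' - x) * q / 2 * s ^ 2) := by
        rw [hδ]; field_simp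
      have h3 : rho d m * (k * Real.log d) ≤ rho d m * (Real.log |(Mu d m r k n : ℝ)| +
          Real.log n + δ * s ^ 2) := mul_le_mul_of_nonneg_left (by linarith) hρ.le
      have h4 : rho d m * (k * Real.log d) ≤ Real.log d * (Real.log n + x * (q * √(Real.log n)) +
          (x' - x) * q / 2 * s ^ 2) := by
        have h5 : rho d m * (Real.log |(Mu d m r k n : ℝ)| + Real.log n + δ * s ^ 2) =
            rho d m * Real.log |(Mu d m r k n : ℝ)| + rho d m * Real.log n +
              rho d m * (δ * s ^ 2) := by ring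
        rw [h5, h2] at h3
        have h6 : Real.log d * (Real.log n + x * (q * √(Real.log n)) +
          (x' - x) * q / 2 * s ^ 2) = (rho d m + lam d m) * Real.log n +
          x * (q * Real.log d * √(Real.log n)) + Real.log d * ((x' - x) * q / 2 * s ^ 2) := by
          rw [hlam]; ring
        rw [h6]
        linarith
      have h5 : rho d m * k ≤ Real.log n + x * (q * √(Real.log n)) + (x' - x) * q / 2 * s ^ 2 := by
        have h6 : rho d m * k * Real.log d ≤ (Real.log n + x * (q * √(Real.log n)) +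
          (x' - x) * q / 2 * s ^ 2) * Real.log d := by linarith
        exact le_of_mul_le_mul_right h6 hlogd
      nlinarith
    linarith [hns (s ^ 4) (by positivity)]
  · intro x' hx ε hε
    have hxx : 0 < x - x' := by linarith
    set δ := (x - x') * q * Real.log d / (2 * rho d m) with hδ
    have hδ0 : 0 < δ := by rw [hδ]; positivity
    obtain ⟨y, hy2, hye, hns⟩ := nonstr_small h hσ hη0 hη1 hsum e hε
    filter_upwards [eventually_ge_atTop 1,
      eventually_ge_atTop (2 * (1 + |x| * q) / ((x - x') * q)),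
      eventually_ge_atTop (2 * lam d m / ((x - x') * q * Real.log d)),
      win_rel h he hy2 hye hδ0] with s hs hs2 _ hrel
    have hs0 : 0 < s := by linarith
    have hss : s ≤ s ^ 2 := by nlinarith
    rw [div_le_iff₀ (by positivity)] at hs2
    have hs3 : 1 + |x| * q ≤ (x - x') * q / 2 * s ^ 2 := by
      have h1 : s * ((x - x') * q) ≤ s ^ 2 * ((x - x') * q) :=
        mul_le_mul_of_nonneg_right hss (by positivity)
      linarith
    have : Fw (HS d m r e (fun k => Q k ∧ thr d m v x' s k)) 1 (s ^ 4) ≤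
        Fw (MS d m r e Q v x) 1 (s ^ 4) +
        Fw {n : ℤ | ¬ Str d m r y (fun L => AA d m 1 * √(L * Real.log L)) n} 1 (s ^ 4) := by
      refine Fw_le_add fun n hn1 hn2 hn => ?_
      by_cases hS : Str d m r y (fun L => AA d m 1 * √(L * Real.log L)) n
      swap
      · exact Or.inr hS
      left
      obtain ⟨hn0, hL1, hL2, hL3, hL4⟩ := win_bds hs hn1 hn2
      obtain ⟨hnL, k, ⟨hQk, hk⟩, hk2, hk3⟩ := hn
      refine ⟨hnL, k, ⟨hQk, ?_⟩, hk2, hk3⟩
      have hr := (abs_le.1 (hrel n hn1 hn2 hnL hS k hk2 hk3)).2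
      unfold thr at hk
      rw [← hq] at hk ⊢
      have h1 : x * (q * s ^ 2) - x * (q * √(Real.log n)) ≤ |x| * q := by
        have h2 : x * (q * s ^ 2) - x * (q * √(Real.log n)) = (-x) * q * (√(Real.log n) - s ^ 2) := by
          ring
        rw [h2]
        have h3 : (-x) * q * (√(Real.log n) - s ^ 2) ≤ |x| * q * (√(Real.log n) - s ^ 2) := by
          apply mul_le_mul_of_nonneg_right _ (by linarith)
          exact mul_le_mul_of_nonneg_right (neg_le_abs x) hq0.le
        have h4 : |x| * q * (√(Real.log n) - s ^ 2) ≤ |x| * q * 1 :=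
          mul_le_mul_of_nonneg_left (by linarith) (by positivity)
        linarith
      have h2 : rho d m * (δ * s ^ 2) = Real.log d * ((x - x') * q / 2 * s ^ 2) := by
        rw [hδ]; field_simp
      have h3 : rho d m * Real.log |(Mu d m r k n : ℝ)| ≤ rho d m * (k * Real.log d -
          Real.log n + δ * s ^ 2) := mul_le_mul_of_nonneg_left (by linarith) hρ.le
      have h4 : rho d m * k * Real.log d ≤ (s ^ 4 + x' * (q * s ^ 2)) * Real.log d :=
        mul_le_mul_of_nonneg_right hk hlogd.le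
      -- final comparison
      have h5 : rho d m * (k * Real.log d - Real.log n + δ * s ^ 2) =
          rho d m * k * Real.log d - rho d m * Real.log n + rho d m * (δ * s ^ 2) := by ring
      rw [h5, h2] at h3
      have h6 : (s ^ 4 + x' * (q * s ^ 2)) * Real.log d ≤
          Real.log d * Real.log n + x' * (q * s ^ 2) * Real.log d := by
        have := mul_le_mul_of_nonneg_right hL1 hlogd.le
        linarith
      have h7 : (x' * (q * s ^ 2) + (x - x') * q / 2 * s ^ 2) * Real.log d ≤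
          (x * (q * √(Real.log n))) * Real.log d := by
        apply mul_le_mul_of_nonneg_right _ hlogd.le
        nlinarith
      have h8 : x * (q * Real.log d * √(Real.log n)) = (x * (q * √(Real.log n))) * Real.log d := by ring
      rw [h8]
      have h9 : lam d m * Real.log n = Real.log d * Real.log n - rho d m * Real.log n := by
        rw [← hlam]; ring
      rw [h9]
      linarith
    linarith [hns (s ^ 4) (by positivity)]

/-- the set without condition on the time -/
theorem UD_true (e : ℤ) {D : ℝ} (hD : Tendsto (Fw (Lm d m r e) 1) atTop (𝓝 D)) :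
    UD d m r e (fun _ => True) D := by
  intro ε hε
  have h1 : HS d m r e (fun _ => True) = Lm d m r e := by
    ext n
    constructor
    · exact fun h => h.1
    · intro h
      rcases Lm_split e (fun _ => True) n h with h2 | h2
      · exact h2
      · obtain ⟨_, k, h3, _⟩ := h2
        exact absurd trivial h3
  filter_upwards [Metric.tendsto_nhds.1 hD ε hε] with u hu N
  rw [h1]
  rw [Real.dist_eq] at hu
  exact hu.le

/-- window densities from natural densities -/
theorem Fw_of_G {S : Set ℤ} {δ : ℝ} (hG : Tendsto (fun X : ℝ => G S 1 X / X) atTop (𝓝 δ)) :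
    Tendsto (Fw S 1) atTop (𝓝 δ) := by
  have h1 : Tendsto (fun t : ℝ => G S 1 (2 * Real.exp t) / (2 * Real.exp t)) atTop (𝓝 δ) :=
    hG.comp (Real.tendsto_exp_atTop.const_mul_atTop (by norm_num : (0 : ℝ) < 2))
  have h2 : Tendsto (fun t : ℝ => G S 1 (Real.exp t) / Real.exp t) atTop (𝓝 δ) :=
    hG.comp Real.tendsto_exp_atTop
  have h3 := (h1.const_mul 2).sub h2
  have e1 : 2 * δ - δ = δ := by ring
  rw [e1] at h3
  refine h3.congr fun t => ?_
  have he := Real.exp_pos t
  rw [Fw_eq S (Or.inl rfl)]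
  field_simp

end Pool.Agent.T2h89.CL
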