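import Pool.Agent.T2h89.CL.A9
import Pool.Agent.N681.AI.A4

/-!
The powers of a generalised Collatz map of coprime type are such maps; equidistribution of the first time of the minimum
modulo every number.
-/

set_option autoImplicit false

namespace Pool.Agent.T2h89.CL
open Pool.Agent.H319R3.GC Pool.Agent.H319R3.DN Finset Filter Topology
open Pool.Agent.T2h89.LT (rho rho_pos rho_lt lam lam_bds sum_log lPP fin_le log_m)
open Pool.Agent.N681.AI (Lm Lm_ainv exists_Rb far_terms m_ne0 step_lower AInv density)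

variable {d : ℕ} {m r : ℕ → ℤ}

theorem wd_congr (h : Adm d m r) {k : ℕ} {x y : ℤ} (hxy : (d : ℤ) ^ k ∣ x - y) :
    wd d m r k x = wd d m r k y := by
  refine wd_of_dvd h (wd_mem h.two_le k y) ?_
  have h1 := iter_eq h k y
  have h2 : Mw m (wd d m r k y) * x - Ww d m r (wd d m r k y) =
      (d : ℤ) ^ k * (Tm d m r)^[k] y + Mw m (wd d m r k y) * (x - y) := by
    rw [h1]; ring
  rw [h2]
  exact dvd_add (dvd_mul_right _ _) (Dvd.dvd.mul_left hxy _)

/-- the multipliers of the power -/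
def mp (d : ℕ) (m r : ℕ → ℤ) (q : ℕ) (i : ℕ) : ℤ := Mw m (wd d m r q (i : ℤ))

/-- the offsets of the power -/
def rp (d : ℕ) (m r : ℕ → ℤ) (q : ℕ) (i : ℕ) : ℤ := Ww d m r (wd d m r q (i : ℤ))

/-- the itineraries of the residues are all words -/
theorem image_wd (h : Adm d m r) (q : ℕ) :
    (range (d ^ q)).image (fun i : ℕ => wd d m r q (i : ℤ)) = LW d q ∧
    Set.InjOn (fun i : ℕ => wd d m r q (i : ℤ)) (range (d ^ q)) := by
  have hinj : Set.InjOn (fun i : ℕ => wd d m r q (i : ℤ)) (range (d ^ q)) := by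
    intro i hi j hj hij
    rw [Finset.mem_coe, mem_range] at hi hj
    have h1 := wd_cong h hij
    obtain ⟨t, ht⟩ := h1
    have hdq : ((d ^ q : ℕ) : ℤ) = (d : ℤ) ^ q := by push_cast; rfl
    have hi' : (i : ℤ) < (d : ℤ) ^ q := by rw [← hdq]; exact_mod_cast hi
    have hj' : (j : ℤ) < (d : ℤ) ^ q := by rw [← hdq]; exact_mod_cast hj
    have h0 : (0 : ℤ) < (d : ℤ) ^ q := by linarith
    have ht0 : t = 0 := by
      rcases lt_trichotomy t 0 with h2 | h2 | h2
      · exfalso
        have : (d : ℤ) ^ q * t ≤ (d : ℤ) ^ q * (-1) := mul_le_mul_of_nonneg_left (by omega) h0.le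
        linarith
      · exact h2
      · exfalso
        have : (d : ℤ) ^ q * 1 ≤ (d : ℤ) ^ q * t := mul_le_mul_of_nonneg_left (by omega) h0.le
        linarith
    rw [ht0, mul_zero] at ht
    omega
  refine ⟨?_, hinj⟩
  apply Finset.eq_of_subset_of_card_le
  · intro w hw
    obtain ⟨i, _, rfl⟩ := mem_image.1 hw
    exact wd_mem h.two_le q _
  · rw [card_LW, Finset.card_image_of_injOn hinj, card_range]

theorem sum_log_words (h : Adm d m r) (q : ℕ) :
    ∑ w ∈ LW d (q + 1), Real.log |(Mw m w : ℝ)| = (q + 1) * (d : ℝ) ^ q * Real.log (PP d m) := by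
  induction q with
  | zero =>
    rw [sum_LW_succ, ← sum_log h]
    simp [LW, Mw]
  | succ q ih =>
    rw [sum_LW_succ]
    have e1 : ∀ i ∈ range d, ∑ w ∈ LW d (q + 1), Real.log |((Mw m (i :: w) : ℤ) : ℝ)| =
        (d : ℝ) ^ (q + 1) * Real.log |(m i : ℝ)| + (q + 1) * (d : ℝ) ^ q * Real.log (PP d m) := by
      intro i hi
      rw [← ih]
      have e2 : ∀ w ∈ LW d (q + 1), Real.log |((Mw m (i :: w) : ℤ) : ℝ)| =
          Real.log |(m i : ℝ)| + Real.log |(Mw m w : ℝ)| := by
        intro w hw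
        have hw0 : (Mw m w : ℝ) ≠ 0 := by exact_mod_cast Mw_ne_zero h (mem_LW.1 hw).2
        have hm0 : (m i : ℝ) ≠ 0 := by exact_mod_cast m_ne0 h (mem_range.1 hi)
        rw [Mw_cons]
        push_cast
        rw [abs_mul, Real.log_mul (abs_pos.2 hm0).ne' (abs_pos.2 hw0).ne']
      rw [Finset.sum_congr rfl e2, Finset.sum_add_distrib, Finset.sum_const, card_LW, nsmul_eq_mul]
      push_cast
      ring
    rw [Finset.sum_congr rfl e1, Finset.sum_add_distrib, ← Finset.mul_sum, sum_log h,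
      Finset.sum_const, card_range, nsmul_eq_mul]
    push_cast
    ring

/-- powers are maps of coprime type -/
theorem adm_pow (h : Adm d m r) (q : ℕ) :
    Adm (d ^ (q + 1)) (mp d m r (q + 1)) (rp d m r (q + 1)) := by
  have hd2 := h.two_le
  have hd0 : (0 : ℝ) < d := by exact_mod_cast (by omega : 0 < d)
  have hlog : Real.log (PP (d ^ (q + 1)) (mp d m r (q + 1))) =
      (q + 1) * (d : ℝ) ^ q * Real.log (PP d m) := by
    rw [← sum_log_words h q, ← (image_wd h (q + 1)).1,
      Finset.sum_image (image_wd h (q + 1)).2]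
    unfold PP
    push_cast
    rw [Real.log_prod]
    · refine Finset.sum_congr rfl fun i _ => ?_
      unfold mp
      rw [Nat.cast_natAbs, Int.cast_abs]
    · intro i _
      have h1 : mp d m r (q + 1) i ≠ 0 := Mw_ne_zero h (mem_LW.1 (wd_mem hd2 (q + 1) (i : ℤ))).2
      exact_mod_cast (Int.natAbs_pos.2 h1).ne'
  have hP2 : (2 : ℝ) ≤ PP d m := by exact_mod_cast h.big
  have hPd : (PP d m : ℝ) < (d : ℝ) ^ d := by exact_mod_cast h.contr
  have hPpos : 0 < PP (d ^ (q + 1)) (mp d m r (q + 1)) := by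
    unfold PP
    apply Finset.prod_pos
    intro i _
    have h1 : mp d m r (q + 1) i ≠ 0 := Mw_ne_zero h (mem_LW.1 (wd_mem hd2 (q + 1) (i : ℤ))).2
    exact Int.natAbs_pos.2 h1
  have hPposR : (0 : ℝ) < PP (d ^ (q + 1)) (mp d m r (q + 1)) := by exact_mod_cast hPpos
  have hLP := lPP h
  refine ⟨?_, ?_, ?_, ?_, ?_⟩
  · calc 2 ≤ d := hd2
      _ = d ^ 1 := (pow_one d).symm
      _ ≤ d ^ (q + 1) := Nat.pow_le_pow_right (by omega) (by omega)
  · intro i _
    push_cast
    exact (Mw_cop h (mem_LW.1 (wd_mem hd2 (q + 1) (i : ℤ))).2).pow_right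
  · intro i _
    push_cast
    exact ⟨_, (iter_eq h (q + 1) (i : ℤ)).symm⟩
  · have h1 : Real.log (PP (d ^ (q + 1)) (mp d m r (q + 1))) <
        Real.log (((d ^ (q + 1)) ^ (d ^ (q + 1)) : ℕ) : ℝ) := by
      rw [hlog]
      push_cast
      rw [Real.log_pow, Real.log_pow]
      have h2 : Real.log (PP d m) < d * Real.log d := by
        rw [← Real.log_pow]
        exact Real.log_lt_log (by linarith) hPd
      have h3 : (q + 1) * (d : ℝ) ^ q * Real.log (PP d m) < (q + 1) * (d : ℝ) ^ q * (d * Real.log d) :=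
        mul_lt_mul_of_pos_left h2 (by positivity)
      refine h3.trans_le (le_of_eq ?_)
      push_cast
      ring
    have h2 := (Real.log_lt_log_iff hPposR (by positivity)).1 h1
    exact_mod_cast h2
  · have h1 : Real.log 2 ≤ Real.log (PP (d ^ (q + 1)) (mp d m r (q + 1))) := by
      rw [hlog]
      have h2 : Real.log 2 ≤ Real.log (PP d m) := Real.log_le_log (by norm_num) hP2
      have h3 : (1 : ℝ) ≤ (q + 1) * (d : ℝ) ^ q := by
        have h4 : (1 : ℝ) ≤ (d : ℝ) ^ q := one_le_pow₀ (by exact_mod_cast (by omega : 1 ≤ d))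
        have h5 : (0 : ℝ) ≤ q := Nat.cast_nonneg q
        nlinarith
      nlinarith
    have h2 := (Real.log_le_log_iff (by norm_num) hPposR).1 h1
    exact_mod_cast h2

/-- the map of the power is the power of the map -/
theorem Tm_pow (h : Adm d m r) (q : ℕ) :
    Tm (d ^ (q + 1)) (mp d m r (q + 1)) (rp d m r (q + 1)) = (Tm d m r)^[q + 1] := by
  funext x
  have hd2 := h.two_le
  have hdq : (0 : ℤ) < (d : ℤ) ^ (q + 1) := by positivity
  unfold Tm mp rp
  have h1 : (((x % ((d ^ (q + 1) : ℕ) : ℤ)).toNat : ℕ) : ℤ) = x % (d : ℤ) ^ (q + 1) := by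
    push_cast
    exact Int.toNat_of_nonneg (Int.emod_nonneg _ hdq.ne')
  have h2 : wd d m r (q + 1) (((x % ((d ^ (q + 1) : ℕ) : ℤ)).toNat : ℕ) : ℤ) = wd d m r (q + 1) x := by
    rw [h1]
    apply wd_congr h
    rw [← dvd_neg, neg_sub]
    exact Int.dvd_self_sub_emod
  rw [h2, ← iter_eq h (q + 1) x]
  push_cast
  exact Int.mul_ediv_cancel_left _ hdq.ne'

end Pool.Agent.T2h89.CL
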