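import Pool.Agent.T2h89.CL.B1

/-!
Equidistribution of the first time of the minimum modulo every number, in windows.
-/

set_option autoImplicit false

namespace Pool.Agent.T2h89.CL
open Pool.Agent.H319R3.GC Pool.Agent.H319R3.DN Finset Filter Topology
open Pool.Agent.T2h89.LT (rho rho_pos rho_lt lam lam_bds sum_log lPP fin_le log_m)
open Pool.Agent.N681.AI (Lm Lm_ainv exists_Rb far_terms m_ne0 step_lower AInv density)

variable {d : ℕ} {m r : ℕ → ℤ}

theorem HS_congr {e : ℤ} {P P' : ℕ → Prop} (hP : ∀ k, P k ↔ P' k) :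
    HS d m r e P = HS d m r e P' := by
  have : P = P' := funext fun k => propext (hP k)
  rw [this]

/-- the sets of the orbits with first time of the minimum in a residue class are almost invariant under the power -/
theorem HS_ainv (h : Adm d m r) (hm : ∀ i < d, 0 < m i) {e : ℤ} (he : 0 < e) (q a : ℕ) :
    ∃ c₀ : ℝ, AInv (d ^ (q + 1)) (mp d m r (q + 1)) (rp d m r (q + 1)) c₀
      (HS d m r e (fun k => k ≡ a [MOD (q + 1)])) := by
  obtain ⟨c₀, hc⟩ := HS_step h hm he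
  refine ⟨c₀, fun j x hx => ?_⟩
  have h1 := hc (fun k => k ≡ a [MOD (q + 1)]) ((q + 1) * j) x (by
    have : ((d ^ (q + 1) : ℕ) : ℝ) ^ j = (d : ℝ) ^ ((q + 1) * j) := by
      push_cast
      rw [← pow_mul]
    rwa [this] at hx)
  rw [Tm_pow h q, ← Function.iterate_mul, h1]
  rw [HS_congr (P' := fun k => k ≡ a [MOD (q + 1)])]
  intro k
  have h2 : (q + 1) * j + k ≡ k [MOD (q + 1)] := by
    unfold Nat.ModEq
    rw [Nat.mul_add_mod]
  exact ⟨fun h3 => h2.symm.trans h3, fun h3 => h2.trans h3⟩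

theorem per_limit (h : Adm d m r) (hm : ∀ i < d, 0 < m i) {e : ℤ} (he : 0 < e)
    {i j : ℕ} (hi : i < d) (hj : j < d) (hij : (m i).natAbs ≠ (m j).natAbs) (q a : ℕ) :
    ∃ D : ℝ, Tendsto (Fw (HS d m r e (fun k => k ≡ a [MOD (q + 1)])) 1) atTop (𝓝 D) := by
  have hA := adm_pow h q
  obtain ⟨c₀, hc⟩ := HS_ainv h hm he q a
  obtain ⟨himg, -⟩ := image_wd h (q + 1)
  have w1 : List.replicate (q + 1) i ∈ LW d (q + 1) := by
    rw [mem_LW]
    refine ⟨by simp, fun l hl => ?_⟩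
    rw [(List.mem_replicate.1 hl).2]; exact hi
  have w2 : j :: List.replicate q i ∈ LW d (q + 1) := by
    rw [mem_LW]
    refine ⟨by simp, fun l hl => ?_⟩
    rcases List.mem_cons.1 hl with h1 | h1
    · rw [h1]; exact hj
    · rw [(List.mem_replicate.1 h1).2]; exact hi
  rw [← himg, mem_image] at w1 w2
  obtain ⟨i', hi', ei⟩ := w1
  obtain ⟨j', hj', ej⟩ := w2
  have hne : (mp d m r (q + 1) i').natAbs ≠ (mp d m r (q + 1) j').natAbs := by
    unfold mp
    rw [ei, ej, List.replicate_succ, Mw_cons, Mw_cons, Int.natAbs_mul, Int.natAbs_mul]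
    intro h1
    apply hij
    have h2 : 0 < (Mw m (List.replicate q i)).natAbs := by
      apply Int.natAbs_pos.2
      apply Mw_ne_zero h
      intro l hl
      rw [(List.mem_replicate.1 hl).2]; exact hi
    exact Nat.eq_of_mul_eq_mul_right h2 h1
  obtain ⟨l, hl, -⟩ := density hA (mem_range.1 hi') (mem_range.1 hj') hne hc
  exact ⟨l 1, Fw_of_G (hl 1 (Or.inl rfl))⟩

theorem per_shift (h : Adm d m r) (hm : ∀ i < d, 0 < m i) {e : ℤ} (he : 0 < e) {P : ℕ → Prop}
    {D D' : ℝ} (h1 : Tendsto (Fw (HS d m r e P) 1) atTop (𝓝 D))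
    (h2 : Tendsto (Fw (HS d m r e (fun k => P (1 + k))) 1) atTop (𝓝 D')) : D = D' := by
  have hd0 : (0 : ℝ) < d := by exact_mod_cast (by have := h.two_le; omega : 0 < d)
  obtain ⟨K, t₀, hK, ht₀, hH⟩ := HS_harm h hm he
  have h3 : Tendsto (fun t => (∑ i ∈ range d, Fw (HS d m r e (fun j => P (1 + j))) 1
      (t + Real.log (|(m i : ℝ)| / d))) / d) atTop (𝓝 D') := by
    have h4 : Tendsto (fun t => ∑ i ∈ range d, Fw (HS d m r e (fun j => P (1 + j))) 1
      (t + Real.log (|(m i : ℝ)| / d))) atTop (𝓝 (∑ i ∈ range d, D')) :=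
      tendsto_finsetSum _ fun i _ => h2.comp (tendsto_atTop_add_const_right _ _ tendsto_id)
    have h5 := h4.div_const (d : ℝ)
    have e1 : (∑ i ∈ range d, D') / d = D' := by
      rw [Finset.sum_const, card_range, nsmul_eq_mul]; field_simp
    rw [e1] at h5
    exact h5
  have h4 : Tendsto (fun t => Fw (HS d m r e P) 1 t - (∑ i ∈ range d,
      Fw (HS d m r e (fun j => P (1 + j))) 1 (t + Real.log (|(m i : ℝ)| / d))) / d) atTop (𝓝 0) := by
    have h5 : Tendsto (fun t : ℝ => K / t ^ 2) atTop (𝓝 0) :=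
      (tendsto_pow_atTop two_ne_zero).const_div_atTop K
    refine squeeze_zero_norm' ?_ h5
    filter_upwards [eventually_ge_atTop t₀] with t ht
    exact hH P t ht
  have h5 := tendsto_nhds_unique (h1.sub h3) h4
  linarith

/-- additivity of the window densities -/
theorem Fw_union {S₁ S₂ : Set ℤ} (hd : ∀ n, n ∈ S₁ → n ∉ S₂) (t : ℝ) :
    Fw (S₁ ∪ S₂) 1 t = Fw S₁ 1 t + Fw S₂ 1 t := by
  unfold Fw nw
  rw [← add_div]
  congr 1
  have h2 : {x : ℤ | x ∈ S₁ ∪ S₂ ∧ Real.exp t ≤ ((1 * x : ℤ) : ℝ) ∧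
      ((1 * x : ℤ) : ℝ) < 2 * Real.exp t ∧ ((1 : ℕ) : ℤ) ∣ x - 0} =
      {x : ℤ | x ∈ S₁ ∧ Real.exp t ≤ ((1 * x : ℤ) : ℝ) ∧
      ((1 * x : ℤ) : ℝ) < 2 * Real.exp t ∧ ((1 : ℕ) : ℤ) ∣ x - 0} ∪
      {x : ℤ | x ∈ S₂ ∧ Real.exp t ≤ ((1 * x : ℤ) : ℝ) ∧
      ((1 * x : ℤ) : ℝ) < 2 * Real.exp t ∧ ((1 : ℕ) : ℤ) ∣ x - 0} := by
    ext x
    simp only [Set.mem_ofPred_eq, Set.mem_union]
    tauto
  rw [h2, Set.ncard_union_eq _ (win_fin1 S₁ t) (win_fin1 S₂ t)]
  · push_cast; rfl
  · rw [Set.disjoint_left]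
    rintro x ⟨h3, _⟩ ⟨h4, _⟩
    exact hd x h3 h4

theorem HS_disj {e : ℤ} {P P' : ℕ → Prop} (hPP : ∀ k, P k → ¬ P' k) :
    ∀ n, n ∈ HS d m r e P → n ∉ HS d m r e P' := by
  rintro n ⟨_, k, h1, h2, h3⟩ ⟨_, k', h1', h2', h3'⟩
  have hk : k = k' := by
    rcases lt_trichotomy k k' with h | h | h
    · exact absurd h2 (h3' k h)
    · exact h
    · exact absurd h2' (h3 k' h)
  rw [← hk] at h1'
  exact hPP k h1 h1'

theorem HS_or (e : ℤ) (P P' : ℕ → Prop) :
    HS d m r e (fun k => P k ∨ P' k) = HS d m r e P ∪ HS d m r e P' := by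
  ext n
  constructor
  · rintro ⟨h0, k, h1 | h1, h2⟩
    · exact Or.inl ⟨h0, k, h1, h2⟩
    · exact Or.inr ⟨h0, k, h1, h2⟩
  · rintro (⟨h0, k, h1, h2⟩ | ⟨h0, k, h1, h2⟩)
    · exact ⟨h0, k, Or.inl h1, h2⟩
    · exact ⟨h0, k, Or.inr h1, h2⟩

theorem per_sum (e : ℤ) (q : ℕ) (b : ℕ) (hb : b ≤ q + 1) (t : ℝ) :
    Fw (HS d m r e (fun k => k % (q + 1) < b)) 1 t =
      ∑ a ∈ range b, Fw (HS d m r e (fun k => k ≡ a [MOD (q + 1)])) 1 t := by
  induction b with
  | zero =>
    have : HS d m r e (fun k => k % (q + 1) < 0) = ∅ := by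
      ext n
      constructor
      · rintro ⟨_, k, h1, _⟩
        exact absurd h1 (Nat.not_lt_zero _)
      · intro h; exact absurd h (Set.notMem_empty _)
    rw [this, Fw_empty]; simp
  | succ b ih =>
    rw [Finset.sum_range_succ, ← ih (by omega)]
    have h1 : HS d m r e (fun k => k % (q + 1) < b + 1) =
        HS d m r e (fun k => k % (q + 1) < b) ∪ HS d m r e (fun k => k ≡ b [MOD (q + 1)]) := by
      rw [← HS_or]
      apply HS_congr
      intro k
      unfold Nat.ModEq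
      rw [Nat.mod_eq_of_lt (by omega : b < q + 1)]
      omega
    rw [h1, Fw_union]
    apply HS_disj
    intro k h2 h3
    unfold Nat.ModEq at h3
    rw [Nat.mod_eq_of_lt (by omega : b < q + 1)] at h3
    omega

/-- **equidistribution of the first time of the minimum modulo `q + 1`** -/
theorem UD_mod (h : Adm d m r) (hm : ∀ i < d, 0 < m i) {e : ℤ} (he : 0 < e)
    {i j : ℕ} (hi : i < d) (hj : j < d) (hij : (m i).natAbs ≠ (m j).natAbs)
    {D : ℝ} (hD : Tendsto (Fw (Lm d m r e) 1) atTop (𝓝 D)) (q a : ℕ) :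
    UD d m r e (fun k => k ≡ a [MOD (q + 1)]) (D / ((q + 1 : ℕ) : ℝ)) := by
  choose D' hD' using fun a => per_limit h hm he hi hj hij q a
  have hstep : ∀ b : ℕ, D' (b + 1) = D' b := by
    intro b
    refine per_shift h hm he (hD' (b + 1)) ?_
    have e1 : HS d m r e (fun k => 1 + k ≡ b + 1 [MOD (q + 1)]) =
        HS d m r e (fun k => k ≡ b [MOD (q + 1)]) := by
      apply HS_congr
      intro k
      constructor
      · intro h1
        rw [add_comm b 1] at h1
        exact Nat.ModEq.add_left_cancel' 1 h1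
      · intro h1
        rw [add_comm b 1]
        exact Nat.ModEq.add_left 1 h1
    rw [e1]
    exact hD' b
  have hconst : ∀ b : ℕ, D' b = D' 0 := by
    intro b
    induction b with
    | zero => rfl
    | succ b ih => rw [hstep, ih]
  have hsum : D = (q + 1 : ℕ) * D' 0 := by
    have h1 : Tendsto (fun t => ∑ b ∈ range (q + 1),
        Fw (HS d m r e (fun k => k ≡ b [MOD (q + 1)])) 1 t) atTop (𝓝 (∑ b ∈ range (q + 1), D' b)) :=
      tendsto_finsetSum _ fun b _ => hD' b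
    have h2 : ∀ t, ∑ b ∈ range (q + 1), Fw (HS d m r e (fun k => k ≡ b [MOD (q + 1)])) 1 t =
        Fw (Lm d m r e) 1 t := by
      intro t
      rw [← per_sum e q (q + 1) le_rfl t]
      congr 1
      ext n
      constructor
      · exact fun h => h.1
      · intro h3
        rcases Lm_split e (fun k => k % (q + 1) < q + 1) n h3 with h4 | h4
        · exact h4
        · obtain ⟨_, k, h5, _⟩ := h4
          exact absurd (Nat.mod_lt k (by omega)) h5
    have h3 := tendsto_nhds_unique hD (h1.congr h2)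
    rw [h3, Finset.sum_congr rfl fun b _ => hconst b, Finset.sum_const, card_range, nsmul_eq_mul]
  have hq0 : (0 : ℝ) < ((q + 1 : ℕ) : ℝ) := by positivity
  have hD0 : D / ((q + 1 : ℕ) : ℝ) = D' 0 := by
    rw [hsum]; field_simp
  rw [hD0]
  intro ε hε
  have h1 : ∀ᶠ u in (atTop : Filter ℝ), ∀ b ∈ range (q + 1),
      |Fw (HS d m r e (fun k => k ≡ b [MOD (q + 1)])) 1 u - D' 0| ≤ ε := by
    rw [Filter.eventually_all_finset]
    intro b _
    have h2 := hD' b
    rw [hconst b] at h2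
    filter_upwards [Metric.tendsto_nhds.1 h2 ε hε] with u hu
    rw [Real.dist_eq] at hu
    exact hu.le
  filter_upwards [h1] with u hu N
  -- the residue class of the shift
  obtain ⟨b, hb, hNb⟩ : ∃ b < q + 1, N + b ≡ a [MOD (q + 1)] := by
    refine ⟨(a + (q + 1) * N - N) % (q + 1), Nat.mod_lt _ (by omega), ?_⟩
    have h2 : N ≤ a + (q + 1) * N := by nlinarith
    have h3 : N + (a + (q + 1) * N - N) % (q + 1) ≡ N + (a + (q + 1) * N - N) [MOD (q + 1)] :=
      Nat.ModEq.add_left N (Nat.mod_modEq _ _)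
    refine h3.trans ?_
    rw [Nat.add_sub_cancel' h2]
    unfold Nat.ModEq
    rw [Nat.add_mul_mod_self_left]
  have e1 : HS d m r e (fun j => N + j ≡ a [MOD (q + 1)]) =
      HS d m r e (fun k => k ≡ b [MOD (q + 1)]) := by
    apply HS_congr
    intro k
    constructor
    · intro h2
      exact Nat.ModEq.add_left_cancel' N (h2.trans hNb.symm)
    · intro h2
      exact (Nat.ModEq.add_left N h2).trans hNb
  rw [e1]
  exact hu b (mem_range.2 hb)

end Pool.Agent.T2h89.CL
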