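import Pool.Agent.T2h89.CL.B2
import Pool.Agent.N681.AI.B2

/-! Natural densities from window densities. -/

set_option autoImplicit false

namespace Pool.Agent.T2h89.CL
open Pool.Agent.H319R3.GC Pool.Agent.H319R3.DN Finset Filter Topology
open Pool.Agent.N681.AI (cp HasD)

theorem hasD_of_Fw {S : Set ℤ} {l : ℝ} (hl : Tendsto (Fw S 1) atTop (𝓝 l)) : HasD S l := by
  have h1 := dens_of_Fw S (Or.inl rfl) hl
  have hGN : ∀ N : ℕ, G S 1 ((N : ℝ) + 1) = cp S N := by
    intro N
    unfold G cp
    congr 2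
    ext x
    simp only [Set.mem_ofPred_eq]
    constructor
    · rintro ⟨g1, g2, g3⟩
      have h4 : (1 * x : ℤ) < (N : ℤ) + 1 := by exact_mod_cast g3
      exact ⟨g1, by omega, by omega⟩
    · rintro ⟨g1, g2, g3⟩
      refine ⟨g1, by omega, ?_⟩
      have h4 : (1 * x : ℤ) < (N : ℤ) + 1 := by omega
      exact_mod_cast h4
  unfold HasD
  have g1 : Tendsto (fun N : ℕ => ((N : ℝ) + 1)) atTop atTop :=
    tendsto_atTop_add_const_right _ _ tendsto_natCast_atTop_atTop
  have g2 := h1.comp g1
  have g3 : Tendsto (fun N : ℕ => ((N : ℝ) + 1) / N) atTop (𝓝 1) := by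
    have g4 : Tendsto (fun N : ℕ => 1 + 1 / (N : ℝ)) atTop (𝓝 (1 + 0)) :=
      tendsto_const_nhds.add tendsto_one_div_atTop_nhds_zero_nat
    rw [add_zero] at g4
    refine g4.congr' ?_
    filter_upwards [eventually_gt_atTop 0] with N hN
    have : (0 : ℝ) < N := by exact_mod_cast hN
    field_simp
  have g5 := g2.mul g3
  rw [mul_one] at g5
  refine g5.congr' ?_
  filter_upwards [eventually_gt_atTop 0] with N hN
  have hN0 : (0 : ℝ) < N := by exact_mod_cast hN
  simp only [Function.comp_apply]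
  rw [hGN N]
  field_simp

end Pool.Agent.T2h89.CL
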